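import Pool.Agent.P.MP_ee618e_ag.CoreN

/-!
The combinatorial core: classification of the vanishing sub-sums without opposite pairs.
-/

set_option autoImplicit false

namespace Pool.Agent.P.MP_ee618e_ag

open Classical

variable {G : Type*} [Group G] [Fintype G] {D : Set G} {R : Multiset (G → ℝ)}

omit [Group G] [Fintype G] in
theorem mem_bind_L {T : Multiset (G → ℝ)} {y : G → ℝ} : y ∈ T.bind L ↔ ∃ v ∈ T, PM y v := by
  simp only [Multiset.mem_bind, mem_L]

omit [Group G] [Fintype G] in
theorem noopp_cons {x y : G → ℝ} {T I : Multiset (G → ℝ)} (hno : ∀ x, ¬ L x ≤ I)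
    (hI : I = x ::ₘ T) (hy : y ∈ T) : y ≠ -x := by
  rintro rfl
  apply hno x
  rw [hI]
  exact Multiset.cons_le_cons _ (Multiset.singleton_le.2 hy)

omit [Group G] [Fintype G] in
theorem eq_zero_of_smul {x : G → ℝ} {k : ℝ} (hk : k ≠ 0) (h : k • x = 0) : x = 0 :=
  (smul_eq_zero.1 h).resolve_left hk

/-- A repeated line is stable. -/
theorem eig_of_rep (h : Ctx D R) {u : G → ℝ} {T : Multiset (G → ℝ)} (hT : T.card = 3)
    (hR : R = (u ::ₘ T).bind L + L u) (hs : (u ::ₘ T).sum = 0)
    (hno : ∀ x, ¬ L x ≤ u ::ₘ T) : Eig u := by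
  intro τ
  by_contra hτ
  have uR : u ∈ R := by
    rw [hR]
    exact Multiset.mem_add.2 (Or.inr (mem_L.2 (PM.refl u)))
  have h1 := h.act_mem τ uR
  rw [hR, Multiset.cons_bind] at h1
  simp only [Multiset.mem_add, mem_L, hτ, false_or, or_false, mem_bind_L] at h1
  obtain ⟨v, hv, h1⟩ := h1
  obtain ⟨T2, rfl⟩ := Multiset.exists_cons_of_mem hv
  have hvu : ¬ PM v u := fun hh => hτ (h1.trans hh)
  have hn : nq v = nq u := by rw [← h1.nq, nq_act]
  have hv0 : v ≠ 0 := by
    rintro rfl
    have : u = 0 := nq_eq_zero (by rw [← hn]; simp [nq])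
    exact hvu (Or.inl this.symm)
  have h2 : v ∈ T2.bind L := by
    have h3 := h.count_orb (h.orb_pm uR (act_mem_orb τ (self_mem_orb u)) h1.symm)
    rw [hR] at h3
    simp only [Multiset.cons_bind, Multiset.count_add, count_L_not hvu, count_L_self hv0] at h3
    have := count_L_pm (PM.refl u)
    exact Multiset.count_pos.1 (by omega)
  obtain ⟨v', hv', h2⟩ := mem_bind_L.1 h2
  have h3 : v' = v := by
    rcases h2.symm with h2 | h2
    · exact h2
    · exact absurd h2 (noopp_cons hno (Multiset.cons_swap _ _ _) (Multiset.mem_cons_of_mem hv'))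
  subst h3
  obtain ⟨T1, rfl⟩ := Multiset.exists_cons_of_mem hv'
  obtain ⟨w, rfl⟩ : ∃ w, T1 = {w} := Multiset.card_eq_one.1 (by simpa using hT)
  have h4 := h.inv τ
  rw [hR] at h4
  simp only [Multiset.cons_bind, Multiset.singleton_bind, Multiset.map_add, map_L,
    L_eq h1] at h4
  have h5 : L (act τ v') + L (act τ v') + L (act τ w) = L u + L u + L w := by
    apply add_left_cancel (a := L v' + L v')
    calc _ = L v' + (L (act τ v') + (L (act τ v') + L (act τ w))) + L v' := by abel
      _ = _ := by
        rw [h4]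
        abel
  have h6 : PM (act τ v') u := by
    by_contra hn'
    have h7 : u ∈ L (act τ v') + L (act τ v') + L (act τ w) := by
      rw [h5]
      simp [mem_L, PM.refl]
    simp only [Multiset.mem_add, mem_L, or_self] at h7
    rcases h7 with h7 | h7
    · exact hn' h7.symm
    · rw [← L_eq h7] at h5
      have h8 : L (act τ v') + L (act τ v') = L u + L w := by
        apply add_right_cancel (b := L u)
        rw [h5]
        abel
      rcases L2 h8 with h9 | h9
      · exact hn' h9.1
      · exact hn' h9.2
  have h7 : PM (act τ w) w := by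
    rw [L_eq h6] at h5
    exact L1 (add_left_cancel h5)
  have hw : w = -(u + v' + v') := by
    simp only [Multiset.sum_cons, Multiset.sum_singleton] at hs
    rw [eq_neg_iff_add_eq_zero, ← hs]
    abel
  have h8 : act τ u + act τ v' + act τ v' + act τ w = 0 := by
    rw [← map_add, ← map_add, ← map_add, hw, add_neg_cancel, map_zero]
  have f := pos_of_not_pm hvu
  have c1 := dotProduct_comm v' u
  rcases h1 with h1 | h1 <;> rcases h6 with h6 | h6 <;> rcases h7 with h7 | h7 <;>
    rw [h1, h6, h7, hw] at h8 <;> have g := gram h8 u v' v' <;>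
    simp only [nq_dot, add_dotProduct, sub_dotProduct, neg_dotProduct, dotProduct_add,
      dotProduct_sub, zero_dotProduct] at g f hn <;>
    linarith [g.1, g.2.1, f.1, f.2]

theorem Ctx.eig_fix (h : Ctx D R) {u : G → ℝ} (hu : u ∈ R) (hE : Eig u) :
    ∀ δ ∈ D, act δ u = u := fun δ hδ => hE.fix (h.dval u hu δ hδ)

/-- A repeated stable line has extremal or vanishing slope. -/
theorem half_of_rep (h : Ctx D R) {u : G → ℝ} {T : Multiset (G → ℝ)} (hT : T.card = 3)
    (hR : R = (u ::ₘ T).bind L + L u) (hs : (u ::ₘ T).sum = 0)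
    (hno : ∀ x, ¬ L x ≤ u ::ₘ T) (hE : Eig u) : u = 0 ∨ |u 1| = 1 / 2 := by
  by_contra hcon
  push Not at hcon
  obtain ⟨hu0, hu⟩ := hcon
  have uR : u ∈ R := by
    rw [hR]
    exact Multiset.mem_add.2 (Or.inr (mem_L.2 (PM.refl u)))
  have hb := abs_lt.1 (lt_of_le_of_ne (h.bound u uR) hu)
  have h1 : u 1 ≠ 0 := fun h0 => hu0 (hE.zero h0)
  obtain ⟨n, hn⟩ := h.ht u uR (h.eig_fix uR hE)
  have hcnt : ∀ S : Multiset (G → ℝ), S ≤ T → u ∉ S → (S.bind L).count u = 0 := by
    intro S hS hu'
    rw [Multiset.count_eq_zero, mem_bind_L]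
    rintro ⟨v, hv, h2⟩
    rcases h2.symm with h2 | h2
    · exact hu' (h2 ▸ hv)
    · exact noopp_cons hno rfl (Multiset.mem_of_le hS hv) h2
  by_cases h2 : u ∈ T
  · obtain ⟨T2, rfl⟩ := Multiset.exists_cons_of_mem h2
    by_cases h3 : u ∈ T2
    · obtain ⟨T1, rfl⟩ := Multiset.exists_cons_of_mem h3
      obtain ⟨w, rfl⟩ : ∃ w, T1 = {w} := Multiset.card_eq_one.1 (by simpa using hT)
      simp only [Multiset.sum_cons, Multiset.sum_singleton] at hs
      have h4 := congrFun hs 1
      simp only [Pi.add_apply, Pi.zero_apply] at h4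
      have h5 : u ∉ ({w} : Multiset (G → ℝ)) := by
        rw [Multiset.mem_singleton]
        rintro rfl
        exact h1 (by linarith)
      have h6 := hcnt {w} ((Multiset.le_cons_self _ _).trans (Multiset.le_cons_self _ _)) h5
      have h7 : R.count u = 4 := by
        rw [hR]
        simp only [Multiset.cons_bind, Multiset.count_add, h6, count_L_self hu0]
      have wR : w ∈ R := by
        rw [hR]
        simp [mem_L, PM.refl]
      have h8 := abs_le.1 (h.bound w wR)
      rw [h7] at hn
      push_cast at hn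
      have h9 : (1 : ℝ) < n := by linarith [h8.1, h8.2]
      have h10 : (n : ℝ) < 3 := by linarith [h8.1, h8.2]
      have h9' : 1 < n := by exact_mod_cast h9
      have h10' : n < 3 := by exact_mod_cast h10
      obtain rfl : n = 2 := by omega
      push_cast at hn
      exact h1 (by linarith)
    · have h6 := hcnt T2 (Multiset.le_cons_self _ _) h3
      have h7 : R.count u = 3 := by
        rw [hR]
        simp only [Multiset.cons_bind, Multiset.count_add, h6, count_L_self hu0]
      obtain ⟨x, y, rfl⟩ := Multiset.card_eq_two.1 (show T2.card = 2 by simpa using hT)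
      have hs' : x + y = (-2 : ℝ) • u := by
        simp only [Multiset.sum_cons, Multiset.insert_eq_cons, Multiset.sum_singleton] at hs
        rw [← sub_eq_zero, ← hs]
        module
      have hxu : ¬ PM x u := fun hh => by
        rw [Multiset.count_eq_zero, mem_bind_L] at h6
        exact h6 ⟨x, by simp, hh.symm⟩
      have hyu : ¬ PM y u := fun hh => by
        rw [Multiset.count_eq_zero, mem_bind_L] at h6
        exact h6 ⟨y, by simp, hh.symm⟩
      have hxy : ¬ PM x y := by
        rintro (rfl | rfl)
        · apply hxu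
          right
          apply smul_right_injective _ (two_ne_zero (α := ℝ))
          simp only
          rw [two_smul, hs']
          module
        · apply hu0
          apply eq_zero_of_smul (k := -2) (by norm_num)
          rw [← hs', neg_add_cancel]
      have hR' : R = L u + L u + L u + L x + L y := by
        rw [hR]
        simp only [Multiset.cons_bind, Multiset.insert_eq_cons, Multiset.singleton_bind]
        abel
      have hst : ∀ v ∈ R, ¬ PM v u → ∀ τ, PM (act τ v) x ∨ PM (act τ v) y := by
        intro v hv hvu τ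
        have h8 := h.act_mem τ hv
        rw [hR'] at h8
        simp only [Multiset.mem_add, mem_L, or_self] at h8
        rcases h8 with (h8 | h8) | h8
        · exact absurd (PM.of_act τ (h8.trans (hE τ).symm)) hvu
        · exact Or.inl h8
        · exact Or.inr h8
      have xR : x ∈ R := by
        rw [hR']
        simp [mem_L, PM.refl]
      have yR : y ∈ R := by
        rw [hR']
        simp [mem_L, PM.refl]
      have hEs : Eig (x + y) := hs' ▸ hE.smul _
      have hEd := eig_sub hxy (hst x xR hxu) (hst y yR hyu) hEs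
      have hf := fun δ (hδ : δ ∈ D) => fix_of_eig hEs hEd (h.dval x xR δ hδ) (h.dval y yR δ hδ)
      have hx : x 1 = 0 ∨ x 1 = 1 / 2 ∨ x 1 = -(1 / 2) := by
        by_cases hx0 : x = 0
        · exact Or.inl (by rw [hx0]; rfl)
        · refine Or.inr (h.half ?_ fun δ hδ => (hf δ hδ).1)
          rw [hR']
          simp only [Multiset.count_add, count_L_not hxu, count_L_not hxy, count_L_self hx0]
      have hy : y 1 = 0 ∨ y 1 = 1 / 2 ∨ y 1 = -(1 / 2) := by
        by_cases hy0 : y = 0
        · exact Or.inl (by rw [hy0]; rfl)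
        · refine Or.inr (h.half ?_ fun δ hδ => (hf δ hδ).2)
          rw [hR']
          simp only [Multiset.count_add, count_L_not hyu, count_L_not (fun hh => hxy (PM.symm hh)),
            count_L_self hy0]
      have h8 := congrFun hs' 1
      simp only [Pi.add_apply, Pi.smul_apply, smul_eq_mul] at h8
      rw [h7] at hn
      push_cast at hn
      have h9 : (0 : ℝ) < n := by linarith [hb.1]
      have h10 : (n : ℝ) < 3 := by linarith [hb.2]
      have h9' : 0 < n := by exact_mod_cast h9
      have h10' : n < 3 := by exact_mod_cast h10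
      obtain rfl | rfl : n = 1 ∨ n = 2 := by omega
      all_goals
        push_cast at hn
        rcases hx with hx | hx | hx <;> rcases hy with hy | hy | hy <;> linarith
  · have h7 : R.count u = 2 := by
      rw [hR]
      simp only [Multiset.cons_bind, Multiset.count_add, hcnt T le_rfl h2, count_L_self hu0]
    rw [h7] at hn
    push_cast at hn
    have h9 : (0 : ℝ) < n := by linarith [hb.1]
    have h10 : (n : ℝ) < 2 := by linarith [hb.2]
    have h9' : 0 < n := by exact_mod_cast h9
    have h10' : n < 2 := by exact_mod_cast h10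
    obtain rfl : n = 1 := by omega
    push_cast at hn
    exact h1 (by linarith)

/-- The case of a line of multiplicity one conjugate to a line of the relation. -/
theorem exc_of_conj (h : Ctx D R) {I : Multiset (G → ℝ)} (hI : I.card = 4) {z : G → ℝ}
    (hR : R = I.bind L + L z) (hs : I.sum = 0) (hz : ∀ u ∈ I, ¬ PM z u) {u : G → ℝ} (hu : u ∈ I)
    {τ : G} (hτ : act τ u = z) : Exc R := by
  obtain ⟨T, hT⟩ := Multiset.exists_cons_of_mem hu
  obtain ⟨x1, x2, x3, rfl⟩ := Multiset.card_eq_three.1 (show T.card = 3 by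
    rw [hT] at hI
    simpa using hI)
  have h1 := h.inv τ
  conv_lhs at h1 => rw [hR, hT]
  simp only [Multiset.cons_bind, Multiset.insert_eq_cons, Multiset.singleton_bind,
    Multiset.map_add, map_L, hτ] at h1
  have h2 : L (act τ x1) + L (act τ x2) + L (act τ x3) + L (act τ z) = I.bind L := by
    apply add_right_cancel (b := L z)
    rw [← hR, ← h1]
    abel
  obtain ⟨v, hv, h3⟩ := mem_bind_L.1 (show act τ z ∈ I.bind L by
    rw [← h2]
    simp [mem_L, PM.refl])
  obtain ⟨T', hT'⟩ := Multiset.exists_cons_of_mem hv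
  obtain ⟨y1, y2, y3, rfl⟩ := Multiset.card_eq_three.1 (show T'.card = 3 by
    rw [hT'] at hI
    simpa using hI)
  have hb : I.bind L = L v + L y1 + L y2 + L y3 := by
    rw [hT']
    simp only [Multiset.cons_bind, Multiset.insert_eq_cons, Multiset.singleton_bind]
    abel
  have h4 : L (act τ x1) + L (act τ x2) + L (act τ x3) = L y1 + L y2 + L y3 := by
    apply add_right_cancel (b := L v)
    rw [← L_eq h3, h2, hb, L_eq h3]
    abel
  obtain ⟨w1, w2, w3, e1, e2, e3, h5⟩ := L3 h4
  have h6 : z = -(w1 + w2 + w3) := by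
    rw [← h5, ← hτ, eq_neg_iff_add_eq_zero, ← map_add, ← map_add, ← map_add]
    rw [hT] at hs
    simp only [Multiset.sum_cons, Multiset.insert_eq_cons, Multiset.sum_singleton] at hs
    rw [add_assoc x1, hs, map_zero]
  have h7 : v = -(y1 + y2 + y3) := by
    rw [hT'] at hs
    simp only [Multiset.sum_cons, Multiset.insert_eq_cons, Multiset.sum_singleton] at hs
    rw [eq_neg_iff_add_eq_zero, add_assoc y1, hs]
  have zR : z ∈ R := by
    rw [hR]
    simp [mem_L, PM.refl]
  have vR : v ∈ R := by
    rw [hR, hb]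
    simp [mem_L, PM.refl]
  have hzv : z ∈ orb v := orb_symm (h.orb_pm zR (act_mem_orb τ (self_mem_orb z)) h3.symm)
  have m1 : y1 ∈ I := by simp [hT']
  have m2 : y2 ∈ I := by simp [hT']
  have m3 : y3 ∈ I := by simp [hT']
  have key : ∀ a p q, a ∈ I → p ∈ I → q ∈ I → v = -(a + p + q) →
      L y1 + L y2 + L y3 = L a + L p + L q → PM (a - p - q) z → Exc R := by
    intro a p q ha hp hq e e' e''
    refine NHyp.exc (D := D) (a := a) (p := p) (q := q) ⟨h, ?_, ?_, ?_, ?_, ?_, ?_⟩
    · rw [hR, hb, L_eq e'', ← e, add_assoc (L v), add_assoc (L v), e']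
      abel
    · rw [← e]
      exact h.orb_pm vR hzv e''
    · rw [← e]
      exact fun hh => hz v hv (e''.symm.trans hh)
    · exact fun hh => hz a ha (e''.symm.trans hh)
    · exact fun hh => hz p hp (e''.symm.trans hh)
    · exact fun hh => hz q hq (e''.symm.trans hh)
  rcases e1 with e1 | e1 <;> rcases e2 with e2 | e2 <;> rcases e3 with e3 | e3 <;>
    rw [e1, e2, e3] at h6
  · exact absurd (Or.inl (h6.trans h7.symm)) (hz v hv)
  · exact key y3 y1 y2 m3 m1 m2 (by rw [h7]; abel) (by abel) (Or.inl (by rw [h6]; abel))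
  · exact key y2 y1 y3 m2 m1 m3 (by rw [h7]; abel) (by abel) (Or.inl (by rw [h6]; abel))
  · exact key y1 y2 y3 m1 m2 m3 h7 rfl (Or.inr (by rw [h6]; abel))
  · exact key y1 y2 y3 m1 m2 m3 h7 rfl (Or.inl (by rw [h6]; abel))
  · exact key y2 y1 y3 m2 m1 m3 (by rw [h7]; abel) (by abel) (Or.inr (by rw [h6]; abel))
  · exact key y3 y1 y2 m3 m1 m2 (by rw [h7]; abel) (by abel) (Or.inr (by rw [h6]; abel))
  · exact absurd (Or.inr (by rw [h6, h7]; abel)) (hz v hv)

/-- Classification for four vectors. -/
theorem core4 (h : Ctx D R) {I : Multiset (G → ℝ)} (hI : I.card = 4) {z : G → ℝ}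
    (hR : R = I.bind L + L z) (hs : I.sum = 0) (hno : ∀ x, ¬ L x ≤ I) :
    Exc R ∨ (Eig z ∧ (z = 0 ∨ |z 1| = 1 / 2)) := by
  have zR : z ∈ R := by
    rw [hR]
    simp [mem_L, PM.refl]
  by_cases h1 : ∃ u ∈ I, PM z u
  · obtain ⟨u, hu, h1⟩ := h1
    obtain ⟨T, rfl⟩ := Multiset.exists_cons_of_mem hu
    have hT : T.card = 3 := by simpa using hI
    rw [L_eq h1] at hR
    have hE := eig_of_rep h hT hR hs hno
    refine Or.inr ⟨hE.pm h1, ?_⟩
    rcases half_of_rep h hT hR hs hno hE with h2 | h2
    · left
      rcases h1 with h1 | h1 <;> simp [h1, h2]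
    · right
      rcases h1 with h1 | h1 <;> simp [h1, h2]
  · push Not at h1
    by_cases h2 : ∃ u ∈ I, ∃ τ, act τ u = z
    · obtain ⟨u, hu, τ, hτ⟩ := h2
      exact Or.inl (exc_of_conj h hI hR hs h1 hu hτ)
    · have hE : Eig z := by
        intro τ
        have h3 := h.act_mem τ zR
        rw [hR, Multiset.mem_add, mem_bind_L, mem_L] at h3
        refine h3.resolve_left ?_
        rintro ⟨u, hu, h3⟩
        exact h2 ⟨u, hu, mem_orb.1 (orb_symm
          (h.orb_pm zR (act_mem_orb τ (self_mem_orb z)) h3.symm))⟩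
      refine Or.inr ⟨hE, ?_⟩
      by_cases h0 : z = 0
      · exact Or.inl h0
      · right
        have hc : R.count z = 1 := by
          rw [hR, Multiset.count_add, count_L_self h0, Multiset.count_eq_zero.2]
          rw [mem_bind_L]
          rintro ⟨u, hu, h3⟩
          exact h1 u hu h3
        rcases h.half hc (h.eig_fix zR hE) with h3 | h3 <;> rw [h3] <;> norm_num [abs_of_pos]

omit [Group G] [Fintype G] in
theorem bind_L_eq (I : Multiset (G → ℝ)) : I.bind L = I + I.map Neg.neg := by
  induction I using Multiset.induction_on with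
  | empty => simp
  | cons a s ih =>
    rw [Multiset.cons_bind, ih, Multiset.map_cons, ← Multiset.singleton_add,
      ← Multiset.singleton_add (-a)]
    simp only [L, Multiset.insert_eq_cons, ← Multiset.singleton_add]
    abel

/-- A sub-multiset without opposite pairs and its negative fit into `R` together. -/
theorem bind_le (h : Ctx D R) (h0 : Even (R.count 0)) {I : Multiset (G → ℝ)} (hI : I ≤ R)
    (hno : ∀ x, ¬ L x ≤ I) : I.bind L ≤ R := by
  rw [bind_L_eq, Multiset.le_iff_count]
  intro x
  have e2 : (I.map Neg.neg).count x = I.count (-x) := by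
    rw [← Multiset.count_map_eq_count' Neg.neg I neg_injective (-x), neg_neg]
  rw [Multiset.count_add, e2]
  have c1 := Multiset.count_le_of_le x hI
  have c2 := Multiset.count_le_of_le (-x) hI
  by_cases hx : x = 0
  · subst hx
    rw [neg_zero] at *
    have : I.count 0 < 2 := by
      by_contra hh
      apply hno 0
      rw [L, neg_zero]
      exact Multiset.le_count_iff_replicate_le.1 (not_lt.1 hh)
    obtain ⟨k, hk⟩ := h0
    omega
  · by_cases h1 : x ∈ I
    · have h2 : -x ∉ I := by
        intro h2
        obtain ⟨T, hT⟩ := Multiset.exists_cons_of_mem h1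
        refine noopp_cons hno hT (y := -x) ?_ rfl
        rw [hT, Multiset.mem_cons] at h2
        refine h2.resolve_left fun h3 => hx ?_
        funext σ
        have := congrFun h3 σ
        simp only [Pi.neg_apply] at this
        simp only [Pi.zero_apply]
        linarith
      rw [Multiset.count_eq_zero.2 h2]
      simpa using c1
    · rw [Multiset.count_eq_zero.2 h1, zero_add]
      by_cases h2 : -x ∈ R
      · rwa [h.count_orb (h.orb_pm h2 (self_mem_orb _) (pm_neg x).symm)]
      · rw [Multiset.count_eq_zero.2 h2] at c2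
        omega

/-- The classification. -/
theorem core (h : Ctx D R) (hc : R.card = 10) (h0 : Even (R.count 0)) {I : Multiset (G → ℝ)}
    (hI : I ≤ R) (hev : Even I.card) (hne : I ≠ 0) (hs : I.sum = 0) (hno : ∀ x, ¬ L x ≤ I) :
    Exc R ∨ I.card = 4 ∧ ∃ z, R = I.bind L + L z ∧ Eig z ∧ (z = 0 ∨ |z 1| = 1 / 2) := by
  obtain ⟨T, hT⟩ := Multiset.le_iff_exists_add.1 (bind_le h h0 hI hno)
  have hcard : (I.bind L).card = 2 * I.card := by
    rw [Multiset.card_bind, show Multiset.card ∘ L (G := G) = fun _ => 2 from rfl]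
    simp [mul_comm]
  have h1 := congrArg Multiset.card hT
  rw [hc, Multiset.card_add, hcard] at h1
  have h2 : I.card ≠ 0 := fun hh => hne (Multiset.card_eq_zero.1 hh)
  have h3 : I.card ≠ 2 := by
    intro hh
    obtain ⟨x, y, rfl⟩ := Multiset.card_eq_two.1 hh
    simp only [Multiset.sum_cons, Multiset.insert_eq_cons, Multiset.sum_singleton] at hs
    exact noopp_cons hno rfl (Multiset.mem_singleton_self y) (eq_neg_of_add_eq_zero_right hs)
  have h4 : I.card = 4 := by
    obtain ⟨k, hk⟩ := hev
    omega
  obtain ⟨x, y, rfl⟩ := Multiset.card_eq_two.1 (show T.card = 2 by omega)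
  have h5 : ({x, y} : Multiset (G → ℝ)) = L x := by
    obtain ⟨c, hc'⟩ := h.neg
    have h6 := h.inv c
    rw [Multiset.map_congr rfl hc', hT, Multiset.map_add, Multiset.map_bind] at h6
    have h7 : (I.bind fun a => (L a).map Neg.neg) = I.bind L :=
      Multiset.bind_congr fun a _ => by
        simp only [L, Multiset.insert_eq_cons, Multiset.map_cons, Multiset.map_singleton, neg_neg]
        exact Multiset.pair_comm _ _
    rw [h7] at h6
    have h8 := add_left_cancel h6
    simp only [Multiset.insert_eq_cons, Multiset.map_cons, Multiset.map_singleton] at h8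
    have h9 := congrArg Multiset.sum h8
    simp only [Multiset.sum_cons, Multiset.sum_singleton] at h9
    have : y = -x := by
      funext σ
      have := congrFun h9 σ
      simp only [Pi.add_apply, Pi.neg_apply] at this ⊢
      linarith
    rw [this, L]
  rw [h5] at hT
  rcases core4 h h4 hT hs hno with h6 | h6
  · exact Or.inl h6
  · exact Or.inr ⟨h4, x, hT, h6⟩

end Pool.Agent.P.MP_ee618e_ag
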