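import Pool.Agent.P.MP_ee618e_ag.Vec

/-!
The combinatorial core, first part: the context and the case of a line of multiplicity one.
-/

set_option autoImplicit false

namespace Pool.Agent.P.MP_ee618e_ag

open Classical

variable {G : Type*} [Group G] [Fintype G]

/-- The properties of the multiset of slope vectors of a Weil polynomial that are used. -/
structure Ctx (D : Set G) (R : Multiset (G → ℝ)) : Prop where
  inv : ∀ τ, R.map (act τ) = R
  neg : ∃ c, ∀ x ∈ R, act c x = -x
  bound : ∀ x ∈ R, |x 1| ≤ 1 / 2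
  dval : ∀ x ∈ R, ∀ δ ∈ D, x δ = x 1
  ht : ∀ x ∈ R, (∀ δ ∈ D, act δ x = x) → ∃ n : ℤ, (R.count x : ℝ) * (x 1 + 1 / 2) = n

/-- The exceptional configuration. -/
def Exc (R : Multiset (G → ℝ)) : Prop :=
  ∃ a b c d : G → ℝ, R = L a + L b + L c + L d + L 0 ∧ a + b + c = 0 ∧ ¬ PM a b ∧ ¬ PM c d ∧
    a ≠ 0 ∧ c ≠ 0 ∧ b ∈ orb a ∧ d ∈ orb c ∧ (∀ τ, PM (act τ a) a ∨ PM (act τ a) b) ∧
    (∀ τ, PM (act τ c) c ∨ PM (act τ c) d)

variable {D : Set G} {R : Multiset (G → ℝ)}

theorem Ctx.act_mem (h : Ctx D R) (τ : G) {x : G → ℝ} (hx : x ∈ R) : act τ x ∈ R := by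
  rw [← h.inv τ]
  exact Multiset.mem_map_of_mem _ hx

theorem Ctx.count_act (h : Ctx D R) (τ : G) (x : G → ℝ) : R.count (act τ x) = R.count x := by
  conv_lhs => rw [← h.inv τ]
  exact Multiset.count_map_eq_count' _ _ (fun _ _ h => act_inj τ h) x

theorem Ctx.count_orb (h : Ctx D R) {x y : G → ℝ} (hy : y ∈ orb x) : R.count y = R.count x := by
  obtain ⟨τ, rfl⟩ := mem_orb.1 hy
  exact h.count_act τ x

theorem Ctx.orb_pm (h : Ctx D R) {x y w : G → ℝ} (hx : x ∈ R) (hy : y ∈ orb x) (hw : PM w y) :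
    w ∈ orb x := by
  rcases hw with rfl | rfl
  · exact hy
  · obtain ⟨c, hc⟩ := h.neg
    obtain ⟨τ, rfl⟩ := mem_orb.1 hy
    rw [← hc _ (h.act_mem τ hx)]
    exact act_mem_orb c hy

theorem Ctx.half (h : Ctx D R) {x : G → ℝ} (hx : R.count x = 1) (hD : ∀ δ ∈ D, act δ x = x) :
    x 1 = 1 / 2 ∨ x 1 = -(1 / 2) := by
  have hm : x ∈ R := Multiset.count_pos.1 (by omega)
  obtain ⟨n, hn⟩ := h.ht x hm hD
  have hb := abs_le.1 (h.bound x hm)
  rw [hx] at hn
  simp only [Nat.cast_one, one_mul] at hn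
  have h0 : (0 : ℝ) ≤ n := by linarith [hb.1]
  have h1 : (n : ℝ) ≤ 1 := by linarith [hb.2]
  have h0' : 0 ≤ n := by exact_mod_cast h0
  have h1' : n ≤ 1 := by exact_mod_cast h1
  obtain rfl | rfl : n = 0 ∨ n = 1 := by omega
  · right
    simp only [Int.cast_zero] at hn
    linarith
  · left
    simp only [Int.cast_one] at hn
    linarith

theorem Ctx.v4 (h : Ctx D R) {a b : G → ℝ} (ca : R.count a = 1) (cb : R.count b = 1)
    (hab : ¬ PM a b) (ha : ∀ τ, PM (act τ a) a ∨ PM (act τ a) b)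
    (hb : ∀ τ, PM (act τ b) a ∨ PM (act τ b) b) (hs : Eig (a + b)) : False := by
  have hd := eig_sub hab ha hb hs
  have ma : a ∈ R := Multiset.count_pos.1 (by omega)
  have mb : b ∈ R := Multiset.count_pos.1 (by omega)
  have hf := fun δ (hδ : δ ∈ D) => fix_of_eig hs hd (h.dval a ma δ hδ) (h.dval b mb δ hδ)
  have h1 := h.half ca fun δ hδ => (hf δ hδ).1
  have h2 := h.half cb fun δ hδ => (hf δ hδ).2
  have h3 : (a + b) 1 = 0 ∨ (a - b) 1 = 0 := by
    simp only [Pi.add_apply, Pi.sub_apply]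
    rcases h1 with h1 | h1 <;> rcases h2 with h2 | h2 <;> rw [h1, h2] <;> norm_num
  rcases h3 with h3 | h3
  · exact hab (Or.inr (eq_neg_of_add_eq_zero_left (hs.zero h3)))
  · exact hab (Or.inl (sub_eq_zero.1 (hd.zero h3)))

omit [Group G] in
theorem nq_dot (x : G → ℝ) : nq x = x ⬝ᵥ x := by simp [nq, dotProduct, sq]

omit [Group G] in
theorem nq_pos {x : G → ℝ} (h : x ≠ 0) : 0 < nq x :=
  lt_of_le_of_ne (Finset.sum_nonneg fun _ _ => sq_nonneg _) fun h' => h (nq_eq_zero h'.symm)

omit [Group G] in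
theorem pos_of_not_pm {x y : G → ℝ} (h : ¬ PM x y) : 0 < nq (x - y) ∧ 0 < nq (x + y) :=
  ⟨nq_pos fun h' => h (Or.inl (sub_eq_zero.1 h')),
    nq_pos fun h' => h (Or.inr (eq_neg_of_add_eq_zero_left h'))⟩

omit [Group G] in
theorem gram {x y : G → ℝ} (h : x = y) (a p q : G → ℝ) :
    x ⬝ᵥ a = y ⬝ᵥ a ∧ x ⬝ᵥ p = y ⬝ᵥ p ∧ x ⬝ᵥ q = y ⬝ᵥ q := by
  rw [h]
  exact ⟨rfl, rfl, rfl⟩

omit [Group G] in
theorem count_L_self {x : G → ℝ} (h : x ≠ 0) : (L x).count x = 1 := by
  have : x ≠ -x := fun h' => h (by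
    funext σ
    have := congrFun h' σ
    simp only [Pi.neg_apply] at this
    simp only [Pi.zero_apply]
    linarith)
  simp [L, Multiset.count_singleton, this]

omit [Group G] in
theorem count_L_not {x y : G → ℝ} (h : ¬ PM x y) : (L y).count x = 0 :=
  Multiset.count_eq_zero.2 fun h' => h (mem_L.1 h')

omit [Group G] in
theorem count_L_pm {x y : G → ℝ} (h : PM x y) : 1 ≤ (L y).count x :=
  Multiset.one_le_count_iff_mem.2 (mem_L.2 h)

section N

variable {a p q : G → ℝ}

/-- The standing assumptions of the case of a line of multiplicity one. -/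
structure NHyp (D : Set G) (R : Multiset (G → ℝ)) (a p q : G → ℝ) : Prop where
  ctx : Ctx D R
  eq : R = L (-(a + p + q)) + L a + L p + L q + L (a - p - q)
  conj : a - p - q ∈ orb (-(a + p + q))
  n1 : ¬ PM (a - p - q) (-(a + p + q))
  n2 : ¬ PM (a - p - q) a
  n3 : ¬ PM (a - p - q) p
  n4 : ¬ PM (a - p - q) q

theorem NHyp.swap (h : NHyp D R a p q) : NHyp D R a q p := by
  have e1 : a + q + p = a + p + q := by abel
  have e2 : a - q - p = a - p - q := by abel
  refine ⟨h.ctx, ?_, ?_, ?_, ?_, ?_, ?_⟩ <;> simp only [e1, e2]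
  · rw [h.eq]
    abel
  exacts [h.conj, h.n1, h.n2, h.n4, h.n3]

theorem NHyp.mem (h : NHyp D R a p q) {y : G → ℝ} :
    y ∈ R ↔ PM y (-(a + p + q)) ∨ PM y a ∨ PM y p ∨ PM y q ∨ PM y (a - p - q) := by
  conv_lhs => rw [h.eq]
  simp only [Multiset.mem_add, mem_L, or_assoc]

theorem NHyp.ne (h : NHyp D R a p q) : -(a + p + q) ≠ 0 := by
  intro h0
  obtain ⟨τ, hτ⟩ := mem_orb.1 h.conj
  apply h.n1
  rw [← hτ, h0, map_zero]
  exact PM.refl 0

theorem NHyp.count (h : NHyp D R a p q) {y : G → ℝ} (hy : y ∈ orb (-(a + p + q))) :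
    R.count y = 1 := by
  have hz : a - p - q ≠ 0 := fun h0 => h.ne (nq_eq_zero (by
    rw [← nq_orb h.conj, h0]
    simp [nq]))
  rw [h.ctx.count_orb hy, ← h.ctx.count_orb h.conj]
  conv_lhs => rw [h.eq]
  simp only [Multiset.count_add, count_L_not h.n1, count_L_not h.n2, count_L_not h.n3,
    count_L_not h.n4, count_L_self hz]

theorem NHyp.nq_ne (h : NHyp D R a p q) : nq a ≠ nq (-(a + p + q)) := by
  intro h0
  have h1 := nq_orb h.conj
  have h2 := pos_of_not_pm h.n1
  have c1 := dotProduct_comm p a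
  have c2 := dotProduct_comm q a
  have c3 := dotProduct_comm q p
  simp only [nq_dot, add_dotProduct, sub_dotProduct, neg_dotProduct, dotProduct_add,
    dotProduct_sub, dotProduct_neg] at h0 h1 h2
  linarith [h2.1, h2.2]

theorem NHyp.rel (τ : G) :
    (2 : ℝ) • act τ a = act τ (a - p - q) - act τ (-(a + p + q)) := by
  rw [← map_sub, ← map_smul]
  congr 1
  module

theorem NHyp.not_orb (h : NHyp D R a p q) (hp : p ∈ orb (-(a + p + q))) : False := by
  have u1R : -(a + p + q) ∈ R := h.mem.2 (Or.inl (PM.refl _))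
  have aR : a ∈ R := h.mem.2 (Or.inr (Or.inl (PM.refl _)))
  have zR : a - p - q ∈ R := h.mem.2 (Or.inr (Or.inr (Or.inr (Or.inr (PM.refl _)))))
  obtain ⟨τ, hτ⟩ := mem_orb.1 hp
  have hrel := NHyp.rel (a := a) (p := p) (q := q) τ
  rw [hτ] at hrel
  have npu : ¬ PM p (-(a + p + q)) := fun hh => by
    have h1 := h.count hp
    rw [h.eq] at h1
    simp only [Multiset.count_add] at h1
    have := count_L_pm hh
    have := count_L_pm (PM.refl p)
    omega
  have f1 := nq_orb h.conj
  have f2 := nq_orb hp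
  have f3 := pos_of_not_pm h.n1
  have f4 := pos_of_not_pm h.n2
  have f5 := pos_of_not_pm h.n3
  have f6 := pos_of_not_pm npu
  have f7 := h.nq_ne
  have c1 := dotProduct_comm p a
  have c2 := dotProduct_comm q a
  have c3 := dotProduct_comm q p
  have hw : PM (act τ (a - p - q)) (-(a + p + q)) ∨ PM (act τ (a - p - q)) (a - p - q) ∨
      PM (act τ (a - p - q)) q := by
    rcases h.mem.1 (h.ctx.act_mem τ zR) with h1 | h1 | h1 | h1 | h1
    · exact Or.inl h1
    · exact absurd (by rw [← h1.nq, nq_act, f1]) f7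
    · exact absurd (PM.of_act τ (by rwa [hτ])) h.n1
    · exact Or.inr (Or.inr h1)
    · exact Or.inr (Or.inl h1)
  have ha : PM (act τ a) a ∨ PM (act τ a) q := by
    rcases h.mem.1 (h.ctx.act_mem τ aR) with h1 | h1 | h1 | h1 | h1
    · exact absurd (by rw [← h1.nq, nq_act]) f7
    · exact Or.inl h1
    · exact absurd (by rw [← f2, ← h1.nq, nq_act]) f7
    · exact Or.inr h1
    · exact absurd (by rw [← f1, ← h1.nq, nq_act]) f7
  rcases hw with hw | hw | hw
  · rcases hw with hw | hw <;> rcases ha with (ha | ha) | (ha | ha) <;> rw [hw, ha] at hrel <;>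
      have g := gram hrel a p q <;>
      simp only [nq_dot, add_dotProduct, sub_dotProduct, neg_dotProduct, dotProduct_add,
        dotProduct_sub, dotProduct_neg, smul_dotProduct, smul_eq_mul] at g f1 f2 f3 f5 f6 <;>
      linarith [g.1, g.2.1, g.2.2, f3.1, f3.2, f5.1, f5.2, f6.1, f6.2]
  · rcases hw with hw | hw <;> rcases ha with (ha | ha) | (ha | ha) <;> rw [hw, ha] at hrel <;>
      have g := gram hrel a p q <;>
      simp only [nq_dot, add_dotProduct, sub_dotProduct, neg_dotProduct, dotProduct_add,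
        dotProduct_sub, dotProduct_neg, smul_dotProduct, smul_eq_mul] at g f1 f2 f3 f5 f6 <;>
      linarith [g.1, g.2.1, g.2.2, f3.1, f3.2, f5.1, f5.2, f6.1, f6.2]
  · have f8 : nq q = nq (-(a + p + q)) := by rw [← hw.nq, nq_act, f1]
    rcases ha with ha | ha
    · rcases hw with hw | hw <;> rcases ha with ha | ha <;> rw [hw, ha] at hrel <;>
        have g := gram hrel a p q <;>
        simp only [nq_dot, add_dotProduct, sub_dotProduct, neg_dotProduct, dotProduct_add,
          dotProduct_sub, dotProduct_neg, smul_dotProduct, smul_eq_mul]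
          at g f1 f2 f3 f4 f5 f6 f8 <;>
        linarith [g.1, g.2.1, g.2.2, f3.1, f3.2, f4.1, f4.2, f5.1, f5.2, f6.1, f6.2]
    · exact f7 (by rw [← f8, ← ha.nq, nq_act])

theorem NHyp.exc_of (h : NHyp D R a p q) (hp : p ∉ orb (-(a + p + q)))
    (hq : q ∉ orb (-(a + p + q))) {τ : G} (h1 : ¬ PM (act τ a) a) (h2 : PM (act τ a) p) :
    Exc R := by
  have u1R : -(a + p + q) ∈ R := h.mem.2 (Or.inl (PM.refl _))
  have aR : a ∈ R := h.mem.2 (Or.inr (Or.inl (PM.refl _)))
  have qR : q ∈ R := h.mem.2 (Or.inr (Or.inr (Or.inr (Or.inl (PM.refl _)))))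
  have f1 := nq_orb h.conj
  have f7 := h.nq_ne
  have hO : ∀ y ∈ orb (-(a + p + q)), PM y (-(a + p + q)) ∨ PM y (a - p - q) := by
    intro y hy
    have hyR : y ∈ R := by
      obtain ⟨σ, rfl⟩ := mem_orb.1 hy
      exact h.ctx.act_mem σ u1R
    rcases h.mem.1 hyR with h3 | h3 | h3 | h3 | h3
    · exact Or.inl h3
    · exact absurd (by rw [← h3.nq, nq_orb hy]) f7
    · exact absurd (h.ctx.orb_pm u1R hy h3.symm) hp
    · exact absurd (h.ctx.orb_pm u1R hy h3.symm) hq
    · exact Or.inr h3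
  have hrel := NHyp.rel (a := a) (p := p) (q := q) τ
  have npa : ¬ PM p a := fun hh => h1 (h2.trans hh)
  have f2 : nq p = nq a := by rw [← h2.nq, nq_act]
  have f3 := pos_of_not_pm h.n1
  have f4 := pos_of_not_pm npa
  have c1 := dotProduct_comm p a
  have c2 := dotProduct_comm q a
  have c3 := dotProduct_comm q p
  have a0 : a ≠ 0 := by
    rintro rfl
    exact h1 (Or.inl (map_zero _))
  have key : q = 0 ∨ q = (-2 : ℝ) • p := by
    have n0 : ¬ PM (act τ (a - p - q)) (act τ (-(a + p + q))) := fun hh => h.n1 (hh.of_act τ)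
    have aux : ∀ u v : G → ℝ, (∀ σ, u σ = v σ) → u = v := fun u v h => funext h
    rcases hO _ (act_mem_orb τ h.conj) with h3 | h3 <;>
      rcases hO _ (act_mem_orb τ (self_mem_orb _)) with h4 | h4
    · exact absurd (h3.trans h4.symm) n0
    · rcases h3 with h3 | h3 <;> rcases h4 with h4 | h4 <;> rcases h2 with h2 | h2 <;>
        rw [h3, h4, h2] at hrel <;> have h5 := congrFun hrel <;>
        simp only [Pi.add_apply, Pi.neg_apply, Pi.sub_apply, Pi.smul_apply, smul_eq_mul] at h5 <;>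
        first
          | (refine Or.inl (aux _ _ fun σ => ?_)
             simp only [Pi.zero_apply]
             linarith [h5 σ])
          | (refine Or.inr (aux _ _ fun σ => ?_)
             simp only [Pi.smul_apply, smul_eq_mul]
             linarith [h5 σ])
          | (refine absurd (Or.inl (aux _ _ fun σ => ?_)) npa
             linarith [h5 σ])
          | (refine absurd (Or.inr (aux _ _ fun σ => ?_)) npa
             simp only [Pi.neg_apply]
             linarith [h5 σ])
    · rcases h3 with h3 | h3 <;> rcases h4 with h4 | h4 <;> rcases h2 with h2 | h2 <;>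
        rw [h3, h4, h2] at hrel <;> have h5 := congrFun hrel <;>
        simp only [Pi.add_apply, Pi.neg_apply, Pi.sub_apply, Pi.smul_apply, smul_eq_mul] at h5 <;>
        first
          | (refine Or.inl (aux _ _ fun σ => ?_)
             simp only [Pi.zero_apply]
             linarith [h5 σ])
          | (refine Or.inr (aux _ _ fun σ => ?_)
             simp only [Pi.smul_apply, smul_eq_mul]
             linarith [h5 σ])
          | (refine absurd (Or.inl (aux _ _ fun σ => ?_)) npa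
             linarith [h5 σ])
          | (refine absurd (Or.inr (aux _ _ fun σ => ?_)) npa
             simp only [Pi.neg_apply]
             linarith [h5 σ])
    · exact absurd (h3.trans h4.symm) n0
  rcases key with rfl | hq2
  · refine ⟨a, p, -(a + p + 0), a - p - 0, ?_, by abel, fun hh => npa hh.symm,
      fun hh => h.n1 hh.symm, a0, h.ne, ?_, h.conj, fun σ => ?_,
      fun σ => hO _ (act_mem_orb σ (self_mem_orb _))⟩
    · rw [h.eq]
      abel
    · exact h.ctx.orb_pm aR (act_mem_orb τ (self_mem_orb _)) h2.symm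
    · rcases h.mem.1 (h.ctx.act_mem σ aR) with h3 | h3 | h3 | h3 | h3
      · exact absurd (by rw [← h3.nq, nq_act]) f7
      · exact Or.inl h3
      · exact Or.inr h3
      · refine absurd (nq_eq_zero ?_) a0
        rw [← nq_act σ, h3.nq]
        simp [nq]
      · exact absurd (by rw [← f1, ← h3.nq, nq_act]) f7
  · exfalso
    have h3 : PM (act τ⁻¹ q) ((2 : ℝ) • a) := by
      have h4 := h2.act τ⁻¹
      rw [← act_mul, inv_mul_cancel, act_one] at h4
      rw [hq2, map_smul]
      rcases h4 with h4 | h4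
      · rw [← h4]
        exact Or.inr (neg_smul _ _)
      · left
        rw [h4]
        module
    have h4 : ∃ y, PM ((2 : ℝ) • a) y ∧
        (y = -(a + p + q) ∨ y = a ∨ y = p ∨ y = q ∨ y = a - p - q) := by
      rcases h.mem.1 (h.ctx.act_mem τ⁻¹ qR) with h4 | h4 | h4 | h4 | h4 <;>
        exact ⟨_, h3.symm.trans h4, by simp⟩
    have g' := gram hq2 a p q
    have f5 := nq_pos a0
    obtain ⟨y, h5, h6⟩ := h4
    rcases h6 with h6 | h6 | h6 | h6 | h6 <;> rw [h6] at h5 <;> rcases h5 with h5 | h5 <;>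
      have g := gram h5 a p q <;>
      simp only [nq_dot, add_dotProduct, sub_dotProduct, neg_dotProduct, dotProduct_add,
        dotProduct_sub, dotProduct_neg, smul_dotProduct, smul_eq_mul] at g g' f2 f4 f5 <;>
      linarith [g.1, g.2.1, g.2.2, g'.1, g'.2.1, g'.2.2, f4.1, f4.2]

theorem NHyp.exc (h : NHyp D R a p q) : Exc R := by
  have e1 : a + q + p = a + p + q := by abel
  have hp : p ∉ orb (-(a + p + q)) := h.not_orb
  have hq : q ∉ orb (-(a + p + q)) := fun hh => h.swap.not_orb (by rwa [e1])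
  have u1R : -(a + p + q) ∈ R := h.mem.2 (Or.inl (PM.refl _))
  have aR : a ∈ R := h.mem.2 (Or.inr (Or.inl (PM.refl _)))
  have f1 := nq_orb h.conj
  have f7 := h.nq_ne
  by_cases hE : Eig a
  · exfalso
    have hO : ∀ y ∈ orb (-(a + p + q)), PM y (a - p - q) ∨ PM y (a + p + q) := by
      intro y hy
      have hyR : y ∈ R := by
        obtain ⟨σ, rfl⟩ := mem_orb.1 hy
        exact h.ctx.act_mem σ u1R
      rcases h.mem.1 hyR with h3 | h3 | h3 | h3 | h3
      · exact Or.inr (h3.trans (pm_neg _))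
      · exact absurd (by rw [← h3.nq, nq_orb hy]) f7
      · exact absurd (h.ctx.orb_pm u1R hy h3.symm) hp
      · exact absurd (h.ctx.orb_pm u1R hy h3.symm) hq
      · exact Or.inl h3
    have hm : a + p + q ∈ orb (-(a + p + q)) :=
      h.ctx.orb_pm u1R (self_mem_orb _) (pm_neg _).symm
    refine h.ctx.v4 (h.count h.conj) (h.count hm) (fun hh => h.n1 (hh.trans (pm_neg _).symm))
      (fun τ => hO _ (act_mem_orb τ h.conj)) (fun τ => hO _ (act_mem_orb τ hm)) ?_
    refine (hE.smul 2).pm (Or.inl ?_)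
    module
  · obtain ⟨τ, hτ⟩ := not_forall.1 hE
    rcases h.mem.1 (h.ctx.act_mem τ aR) with h3 | h3 | h3 | h3 | h3
    · exact absurd (by rw [← h3.nq, nq_act]) f7
    · exact absurd h3 hτ
    · exact h.exc_of hp hq hτ h3
    · exact h.swap.exc_of (by rwa [e1]) (by rwa [e1]) hτ h3
    · exact absurd (by rw [← f1, ← h3.nq, nq_act]) f7

end N

end Pool.Agent.P.MP_ee618e_ag
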