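import Mathlib

/-!
Definitions used in the statement on Tate classes on abelian fivefolds over finite fields.
-/

set_option autoImplicit false

namespace Pool.Agent.P.MP_ee618e_ag

open Polynomial

/-- The Honda-Tate conditions, which characterise the characteristic polynomials of Frobenius
of the abelian varieties over the field with `q = p ^ a` elements: `P` is monic, its complex roots
have absolute value `√q`, its real roots have even multiplicity, and for every monic irreducible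
factor `h` of `P` over `ℚ_[p]`, of multiplicity `m`, the number `m * v_p(h(0)) / v_p(q)` is an
integer. -/
def IsAVPoly (p a : ℕ) [Fact p.Prime] (P : ℤ[X]) : Prop :=
  P.Monic ∧ (∀ z : ℂ, aeval z P = 0 → ‖z‖ ^ 2 = (p : ℝ) ^ a) ∧
    (∀ t : ℝ, Even ((P.map (Int.castRingHom ℝ)).rootMultiplicity t)) ∧
    ∀ h : ℚ_[p][X], h.Monic → Irreducible h →
      (a : ℤ) ∣ (multiplicity h (P.map (Int.castRingHom ℚ_[p])) : ℤ) * (h.coeff 0).valuation

/-- The exceptional shape `P = P₁ P₂ (X - r) ^ 2` with `r ^ 2 = q`, different monic irreducible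
quartics `P₁`, `P₂` and a relation `π₁ π₂ = r π₃` between two different roots `π₁`, `π₂` of `P₁`
with `π₁ π₂ ≠ q` and a root `π₃` of `P₂`. -/
def IsExceptional (q : ℤ) (P : ℤ[X]) : Prop :=
  ∃ (P₁ P₂ : ℤ[X]) (r : ℤ) (π₁ π₂ π₃ : ℂ), P₁.Monic ∧ P₂.Monic ∧ Irreducible P₁ ∧
    Irreducible P₂ ∧ P₁ ≠ P₂ ∧ P₁.natDegree = 4 ∧ P₂.natDegree = 4 ∧ r ^ 2 = q ∧
    P = P₁ * P₂ * (X - C r) ^ 2 ∧ aeval π₁ P₁ = 0 ∧ aeval π₂ P₁ = 0 ∧ aeval π₃ P₂ = 0 ∧
    π₁ ≠ π₂ ∧ π₁ * π₂ ≠ q ∧ π₁ * π₂ = r * π₃

/-- Tate classes of codimension `i` in the exterior algebra of `V`: the elements of degree `2 i`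
on which some positive power `F ^ N` of the Frobenius `F` acts as `q ^ (i N)`. -/
def TateClasses {K V : Type*} [Field K] [AddCommGroup V] [Module K V] (F : V →ₗ[K] V) (q : K)
    (i : ℕ) : Set (ExteriorAlgebra K V) :=
  {x | x ∈ ⋀[K]^(2 * i) V ∧
    ∃ N : ℕ, 0 < N ∧ ExteriorAlgebra.map (F ^ N) x = q ^ (i * N) • x}

/-- The elements of the exterior algebra that come from a fourfold factor: those in the subalgebra
generated by eight of the eigenvectors `b j`, `j ∈ J`, where the product of the `X - α j`, `j ∈ J`,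
is a polynomial with integer coefficients satisfying the Honda-Tate conditions. -/
def FourfoldClasses (p a : ℕ) [Fact p.Prime] {K V : Type*} [Field K] [AddCommGroup V]
    [Module K V] (b : Module.Basis (Fin 10) K V) (α : Fin 10 → K) : Set (ExteriorAlgebra K V) :=
  {x | ∃ (J : Finset (Fin 10)) (P' : ℤ[X]), J.card = 8 ∧ IsAVPoly p a P' ∧
    P'.map (Int.castRingHom K) = ∏ j ∈ J, (X - C (α j)) ∧
    x ∈ Algebra.adjoin K ((fun j => ExteriorAlgebra.ι K (b j)) '' (J : Set (Fin 10)))}

end Pool.Agent.P.MP_ee618e_ag
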