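import Pool.Agent.P.MP_ee618e_ag.Defs

/-!
The monomial basis of the exterior algebra.
-/

set_option autoImplicit false

namespace Pool.Agent.P.MP_ee618e_ag

open Module

variable {K V I : Type*} [Field K] [AddCommGroup V] [Module K V] [LinearOrder I]
  (b : Basis I K V)

theorem e_eq {J : Finset I} {n : ℕ} (h : J.card = n) :
    b.ExteriorAlgebra J = ExteriorAlgebra.ιMulti K n (b ∘ J.orderEmbOfFin h) :=
  ExteriorAlgebra.basis_apply_ofCard b h

theorem e_map {G : V →ₗ[K] V} {β : I → K} (h : ∀ j, G (b j) = β j • b j) (J : Finset I) :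
    ExteriorAlgebra.map G (b.ExteriorAlgebra J) = (∏ j ∈ J, β j) • b.ExteriorAlgebra J := by
  rw [e_eq b rfl, ExteriorAlgebra.map_apply_ιMulti]
  have h1 : G ∘ b ∘ J.orderEmbOfFin rfl =
      fun i => β (J.orderEmbOfFin rfl i) • (b ∘ J.orderEmbOfFin rfl) i := funext fun i => h _
  rw [h1, AlternatingMap.map_smul_univ]
  congr 1
  conv_rhs => rw [← J.map_orderEmbOfFin_univ rfl, Finset.prod_map]
  rfl

theorem e_mem {J : Finset I} {n : ℕ} (h : J.card = n) : b.ExteriorAlgebra J ∈ ⋀[K]^n V := by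
  rw [e_eq b h]
  exact ExteriorAlgebra.ιMulti_range K n ⟨_, rfl⟩

theorem card_of_supp {n : ℕ} {x : ExteriorAlgebra K V} (hx : x ∈ ⋀[K]^n V) {J : Finset I}
    (hJ : J ∈ (b.ExteriorAlgebra.repr x).support) : J.card = n := by
  rw [← exteriorPower.ιMulti_family_span_fixedDegree_of_span K b.span_eq] at hx
  have h1 : x ∈ Submodule.span K (b.ExteriorAlgebra '' {J | J.card = n}) := by
    refine Submodule.span_mono ?_ hx
    rintro _ ⟨s, rfl⟩
    exact ⟨s, s.2, ExteriorAlgebra.basis_apply_powersetCard b s⟩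
  exact b.ExteriorAlgebra.mem_span_image.1 h1 hJ

theorem e_mul {s t : Finset I} (h : Disjoint s t) :
    ∃ u : ℤˣ, b.ExteriorAlgebra s * b.ExteriorAlgebra t = u • b.ExteriorAlgebra (s ∪ t) := by
  have h1 := ExteriorAlgebra.basis_mul_of_disjoint b (Set.powersetCard.ofCard (s := s) rfl)
    (Set.powersetCard.ofCard (s := t) rfl) h
  rw [← Finset.disjUnion_eq_union s t h]
  exact ⟨_, h1⟩

theorem e_mul' {s t : Finset I} (h : ¬ Disjoint s t) :
    b.ExteriorAlgebra s * b.ExteriorAlgebra t = 0 :=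
  ExteriorAlgebra.basis_mul_of_not_disjoint b (Set.powersetCard.ofCard (s := s) rfl)
    (Set.powersetCard.ofCard (s := t) rfl) h

theorem e_empty : b.ExteriorAlgebra ∅ = 1 := by
  rw [e_eq b Finset.card_empty, ExteriorAlgebra.ιMulti_zero_apply]

theorem e_single (j : I) : b.ExteriorAlgebra {j} = ExteriorAlgebra.ι K (b j) := by
  rw [e_eq b (Finset.card_singleton j), ExteriorAlgebra.ιMulti_apply]
  simp [Finset.orderEmbOfFin_singleton]

theorem e_union_mem (S : Subalgebra K (ExteriorAlgebra K V)) {s t : Finset I} (h : Disjoint s t)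
    (hs : b.ExteriorAlgebra s ∈ S) (ht : b.ExteriorAlgebra t ∈ S) :
    b.ExteriorAlgebra (s ∪ t) ∈ S := by
  obtain ⟨u, hu⟩ := e_mul b h
  rw [← inv_smul_eq_iff] at hu
  rw [← hu, Units.smul_def]
  exact zsmul_mem (S.mul_mem hs ht) _

theorem e_mem_adjoin {J J' : Finset I} (h : J ⊆ J') : b.ExteriorAlgebra J ∈
    Algebra.adjoin K ((fun j => ExteriorAlgebra.ι K (b j)) '' (J' : Set I)) := by
  rw [e_eq b rfl, ExteriorAlgebra.ιMulti_apply]
  refine Subalgebra.list_prod_mem _ fun x hx => ?_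
  obtain ⟨i, rfl⟩ := List.mem_ofFn.1 hx
  exact Algebra.subset_adjoin ⟨_, h (J.orderEmbOfFin_mem rfl i), rfl⟩

/-- The span of the monomials in a family closed under disjoint unions. -/
noncomputable def mono (Q : Set (Finset I)) (h0 : ∅ ∈ Q)
    (h : ∀ s ∈ Q, ∀ t ∈ Q, Disjoint s t → s ∪ t ∈ Q) : Subalgebra K (ExteriorAlgebra K V) :=
  (Submodule.span K (b.ExteriorAlgebra '' Q)).toSubalgebra
    (Submodule.subset_span ⟨∅, h0, e_empty b⟩) fun x y hx hy => by
      have h1 := Submodule.mul_mem_mul hx hy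
      rw [Submodule.span_mul_span] at h1
      refine Submodule.span_le.2 ?_ h1
      rintro _ ⟨_, ⟨s, hs, rfl⟩, _, ⟨t, ht, rfl⟩, rfl⟩
      by_cases hd : Disjoint s t
      · obtain ⟨u, hu⟩ := e_mul b hd
        simp only [hu, Units.smul_def, SetLike.mem_coe]
        exact zsmul_mem (Submodule.subset_span (Set.mem_image_of_mem _ (h s hs t ht hd))) _
      · simp only [e_mul' b hd, SetLike.mem_coe]
        exact zero_mem _

theorem mem_mono {Q : Set (Finset I)} {h0 : ∅ ∈ Q}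
    {h : ∀ s ∈ Q, ∀ t ∈ Q, Disjoint s t → s ∪ t ∈ Q} {x : ExteriorAlgebra K V} :
    x ∈ mono b Q h0 h ↔ ∀ J ∈ (b.ExteriorAlgebra.repr x).support, J ∈ Q :=
  b.ExteriorAlgebra.mem_span_image

theorem subset_of_supp {J' : Finset I} {x : ExteriorAlgebra K V}
    (hx : x ∈ Algebra.adjoin K ((fun j => ExteriorAlgebra.ι K (b j)) '' (J' : Set I)))
    {J : Finset I} (hJ : J ∈ (b.ExteriorAlgebra.repr x).support) : J ⊆ J' := by
  have h1 : x ∈ mono b {J | J ⊆ J'} (Finset.empty_subset _)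
      fun s hs t ht _ => Finset.union_subset hs ht := by
    refine Algebra.adjoin_le ?_ hx
    rintro _ ⟨j, hj, rfl⟩
    exact Submodule.subset_span ⟨{j}, Finset.singleton_subset_iff.2 hj, e_single b j⟩
  exact (mem_mono b).1 h1 J hJ

theorem repr_map {G : V →ₗ[K] V} {β : I → K} (h : ∀ j, G (b j) = β j • b j) (J : Finset I)
    (x : ExteriorAlgebra K V) : b.ExteriorAlgebra.repr (ExteriorAlgebra.map G x) J =
      (∏ j ∈ J, β j) * b.ExteriorAlgebra.repr x J := by
  have h1 : (b.ExteriorAlgebra.coord J) ∘ₗ (ExteriorAlgebra.map G).toLinearMap =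
      (∏ j ∈ J, β j) • b.ExteriorAlgebra.coord J := by
    refine b.ExteriorAlgebra.ext fun s => ?_
    simp only [LinearMap.comp_apply, AlgHom.toLinearMap_apply, e_map b h, map_smul,
      LinearMap.smul_apply, Basis.coord_apply, Basis.repr_self]
    by_cases hs : s = J
    · rw [hs]
    · simp [hs]
  exact LinearMap.congr_fun h1 x

variable {b} {F : V →ₗ[K] V} {α : I → K}

omit [LinearOrder I] in
theorem pow_eig (hF : ∀ j, F (b j) = α j • b j) (N : ℕ) (j : I) :
    (F ^ N) (b j) = α j ^ N • b j := by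
  induction N with
  | zero => simp
  | succ n ih => rw [pow_succ', Module.End.mul_apply, ih, map_smul, hF, smul_smul, pow_succ]

theorem e_tate (hF : ∀ j, F (b j) = α j • b j) {q : K} {i N : ℕ} (hN : 0 < N) {J : Finset I}
    (hJ : J.card = 2 * i) (h : (∏ j ∈ J, α j) ^ N = q ^ (i * N)) :
    b.ExteriorAlgebra J ∈ TateClasses F q i :=
  ⟨e_mem b hJ, N, hN, by rw [e_map b (pow_eig hF N), Finset.prod_pow, h]⟩

theorem supp_tate (hF : ∀ j, F (b j) = α j • b j) {q : K} {i : ℕ} {x : ExteriorAlgebra K V}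
    (hx : x ∈ TateClasses F q i) {J : Finset I} (hJ : J ∈ (b.ExteriorAlgebra.repr x).support) :
    J.card = 2 * i ∧ ∃ N, 0 < N ∧ (∏ j ∈ J, α j) ^ N = q ^ (i * N) := by
  obtain ⟨h1, N, hN, h2⟩ := hx
  refine ⟨card_of_supp b h1 hJ, N, hN, ?_⟩
  have h3 := repr_map b (pow_eig hF N) J x
  rw [h2, map_smul, Finsupp.smul_apply, smul_eq_mul, Finset.prod_pow] at h3
  exact (mul_right_cancel₀ (Finsupp.mem_support_iff.1 hJ) h3).symm

end Pool.Agent.P.MP_ee618e_ag
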