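import Mathlib

/-!
Number-theoretic tools: embeddings of a Galois number field and Kronecker's theorem.
-/

set_option autoImplicit false

namespace Pool.Agent.P.MP_ee618e_ag

open Polynomial

variable {p : ℕ} [hp : Fact p.Prime] {E : Type*} [Field E] [NumberField E]

/-- Two embeddings of a Galois number field differ by an automorphism. -/
theorem emb [IsGalois ℚ E] {Ω : Type*} [Field Ω] (f g : E →+* Ω) :
    ∃ σ : E ≃ₐ[ℚ] E, ∀ x, f (σ x) = g x := by
  have : CharZero Ω := (RingHom.charZero_iff f.injective).mp inferInstance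
  let : Algebra E Ω := f.toAlgebra
  have : IsScalarTower ℚ E Ω :=
    IsScalarTower.of_algebraMap_eq fun x => by simp [RingHom.algebraMap_toAlgebra]
  exact ⟨(g.toRatAlgHom).restrictNormal' E, fun x => (g.toRatAlgHom).restrictNormal_commutes E x⟩

theorem coeff_mem {K : Type*} [Field K] (S : Subring K) (s : Multiset K) (hs : ∀ y ∈ s, y ∈ S)
    (k : ℕ) : ((s.map fun y => X - C y).prod).coeff k ∈ S := by
  have h : (s.map fun y => X - C y).prod ∈ liftsRing S.subtype := by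
    refine Subring.multiset_prod_mem _ _ fun f hf => ?_
    obtain ⟨y, hy, rfl⟩ := Multiset.mem_map.1 hf
    exact ⟨X - C ⟨y, hs y hy⟩, by simp⟩
  obtain ⟨z, hz⟩ := (lifts_iff_coeff_lifts _).1 ((lifts_iff_liftsRing _ _).2 h) k
  rw [← hz]
  exact z.2

theorem norm_le_one_of_integral {x : PadicAlgCl p} (hx : IsIntegral ℤ x) : ‖x‖ ≤ 1 := by
  have h := Valuation.integer.integers (Valued.v : Valuation (PadicAlgCl p) NNReal)
  have h2 := h.mem_of_integral (x := x) hx.tower_top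
  rw [← PadicAlgCl.valuation_coe]
  exact_mod_cast h2

theorem int_of_rat (c : ℚ) (h1 : ‖(c : ℚ_[p])‖ ≤ 1) (N : ℕ) (m : ℤ) (h2 : (p : ℚ) ^ N * c = m) :
    ∃ n : ℤ, (n : ℚ) = c := by
  have hp0 : (0 : ℝ) < p := by exact_mod_cast hp.out.pos
  have hp1 : (p : ℚ) ≠ 0 := by exact_mod_cast hp.out.ne_zero
  have h3 : ‖(m : ℚ_[p])‖ ≤ (p : ℝ) ^ (-N : ℤ) := by
    have : (m : ℚ_[p]) = (p : ℚ_[p]) ^ N * c := by exact_mod_cast congrArg (Rat.cast : ℚ → ℚ_[p]) h2.symm
    rw [this, norm_mul, Padic.norm_p_pow]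
    exact mul_le_of_le_one_right (by positivity) h1
  obtain ⟨n, hn⟩ := (Padic.norm_int_le_pow_iff_dvd m N).1 h3
  refine ⟨n, mul_left_cancel₀ (pow_ne_zero N hp1) ?_⟩
  rw [h2, hn]
  push_cast
  rfl

/-- The elements that become integral after multiplication by a power of `p`. -/
def pint (p : ℕ) (E : Type*) [Field E] : Subring E where
  carrier := {x | ∃ N : ℕ, IsIntegral ℤ ((p : E) ^ N * x)}
  mul_mem' := by
    rintro x y ⟨N, hN⟩ ⟨M, hM⟩
    refine ⟨N + M, ?_⟩
    rw [show (p : E) ^ (N + M) * (x * y) = (p : E) ^ N * x * ((p : E) ^ M * y) by ring]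
    exact hN.mul hM
  one_mem' := ⟨0, by simpa using isIntegral_one⟩
  add_mem' := by
    rintro x y ⟨N, hN⟩ ⟨M, hM⟩
    have h : IsIntegral ℤ (p : E) := by
      simpa using isIntegral_algebraMap (R := ℤ) (A := E) (x := (p : ℤ))
    refine ⟨N + M, ?_⟩
    rw [show (p : E) ^ (N + M) * (x + y) =
      (p : E) ^ M * ((p : E) ^ N * x) + (p : E) ^ N * ((p : E) ^ M * y) by ring]
    exact ((h.pow M).mul hN).add ((h.pow N).mul hM)
  zero_mem' := ⟨0, by simpa using isIntegral_zero⟩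
  neg_mem' := by
    rintro x ⟨N, hN⟩
    exact ⟨N, by simpa using hN.neg⟩

theorem integral_of_padic [IsGalois ℚ E] (ι : E →+* PadicAlgCl p) {u : E} (h1 : u ∈ pint p E)
    (h2 : ∀ σ : E ≃ₐ[ℚ] E, ‖ι (σ u)‖ ≤ 1) : IsIntegral ℤ u := by
  have hu : IsIntegral ℚ u := Algebra.IsIntegral.isIntegral u
  have hm := minpoly.monic hu
  have hsp : ((minpoly ℚ u).map (algebraMap ℚ E)).Splits := Normal.splits inferInstance u
  have hprod := hsp.eq_prod_roots_of_monic (hm.map _)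
  let S : Subring E :=
    (Valued.v : Valuation (PadicAlgCl p) NNReal).integer.comap ι ⊓ pint p E
  have hS : ∀ y ∈ ((minpoly ℚ u).map (algebraMap ℚ E)).roots, y ∈ S := by
    intro y hy
    have hy' : aeval y (minpoly ℚ u) = 0 := by
      have := (mem_roots (hm.map _).ne_zero).1 hy
      rwa [IsRoot.def, eval_map_algebraMap] at this
    obtain ⟨σ, rfl⟩ := minpoly.exists_algEquiv_of_root' hu.isAlgebraic hy'
    refine ⟨?_, ?_⟩
    · have := h2 σ
      rw [← PadicAlgCl.valuation_coe] at this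
      exact_mod_cast this
    · obtain ⟨N, hN⟩ := h1
      exact ⟨N, by simpa using hN.map (σ.toAlgHom.restrictScalars ℤ)⟩
  have hc : ∀ k, ∃ n : ℤ, (n : ℚ) = (minpoly ℚ u).coeff k := by
    intro k
    have h3 := coeff_mem S _ hS k
    rw [← hprod, coeff_map] at h3
    obtain ⟨h4, N, h5⟩ := h3
    have h6 : IsIntegral ℤ ((p : ℚ) ^ N * (minpoly ℚ u).coeff k) := by
      rw [← isIntegral_algebraMap_iff (algebraMap ℚ E).injective]
      simpa using h5
    obtain ⟨m, hm⟩ := IsIntegrallyClosed.isIntegral_iff.1 h6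
    refine int_of_rat (p := p) _ ?_ N m (by simpa using hm.symm)
    rw [← PadicAlgCl.norm_extends, ← PadicAlgCl.valuation_coe]
    have h7 : Valued.v (ι (algebraMap ℚ E ((minpoly ℚ u).coeff k))) ≤ 1 := h4
    simp only [eq_ratCast, map_ratCast] at h7 ⊢
    exact_mod_cast h7
  obtain ⟨g, hg, -, hg'⟩ := lifts_and_natDegree_eq_and_monic
    ((lifts_iff_coeff_lifts (f := algebraMap ℤ ℚ) _).2 fun k => by
      obtain ⟨n, hn⟩ := hc k
      exact ⟨n, by simpa using hn⟩) hm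
  refine ⟨g, hg', ?_⟩
  have := minpoly.aeval ℚ u
  rwa [← hg, aeval_map_algebraMap] at this

/-- A `p`-unit all of whose absolute values are one is a root of unity. -/
theorem kron [IsGalois ℚ E] (ι : E →+* PadicAlgCl p) {u : E} (h1 : u ∈ pint p E)
    (h2 : ∀ σ : E ≃ₐ[ℚ] E, ‖ι (σ u)‖ = 1) (h3 : ∀ ψ : E →+* ℂ, ‖ψ u‖ = 1) :
    ∃ n : ℕ, 0 < n ∧ u ^ n = 1 := by
  obtain ⟨n, hn, h⟩ := NumberField.Embeddings.pow_eq_one_of_norm_eq_one E ℂ
    (integral_of_padic ι h1 fun σ => (h2 σ).le) h3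
  exact ⟨n, hn, h⟩

/-- An element fixed by all automorphisms preserving the `p`-adic norm is `p`-adic. -/
theorem padic_of_fixed [IsGalois ℚ E] (ι : E →+* PadicAlgCl p) {x : E}
    (h : ∀ δ : E ≃ₐ[ℚ] E, (∀ y, ‖ι (δ y)‖ = ‖ι y‖) → δ x = x) :
    ∃ β : ℚ_[p], algebraMap ℚ_[p] (PadicAlgCl p) β = ι x := by
  refine (InfiniteGalois.mem_range_algebraMap_iff_fixed (ι x)).2 fun γ => ?_
  obtain ⟨δ, hδ⟩ := emb ι (γ.toRingEquiv.toRingHom.comp ι)
  have h1 := h δ fun y => by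
    rw [hδ]
    exact (spectralNorm_eq_of_equiv γ (ι y)).symm
  have h2 := hδ x
  rw [h1] at h2
  exact h2.symm

/-- An algebraic integer fixed by the Galois group is an integer. -/
theorem int_of_fixed [IsGalois ℚ E] {x : E} (hx : IsIntegral ℤ x)
    (h : ∀ σ : E ≃ₐ[ℚ] E, σ x = x) : ∃ n : ℤ, (n : E) = x := by
  obtain ⟨c, rfl⟩ := (IsGalois.mem_range_algebraMap_iff_fixed x).2 h
  rw [isIntegral_algebraMap_iff (algebraMap ℚ E).injective] at hx
  obtain ⟨m, rfl⟩ := IsIntegrallyClosed.isIntegral_iff.1 hx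
  exact ⟨m, by simp⟩

end Pool.Agent.P.MP_ee618e_ag
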