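import Pool.Agent.P.MP_ee618e_ag.Weil

/-!
Splitting off an elliptic factor, and the exceptional shape.
-/

set_option autoImplicit false

namespace Pool.Agent.P.MP_ee618e_ag

open Polynomial Classical

variable {p a : ℕ} [hp : Fact p.Prime] {P : ℤ[X]} {E : Type*} [Field E] [NumberField E]
  {A : Multiset E}

theorem IsAVPoly.of_mul {Q P' : ℤ[X]} (h : IsAVPoly p a P) (hP : P = Q * P') (hm : Q.Monic)
    (h1 : ∀ t : ℝ, Even ((Q.map (Int.castRingHom ℝ)).rootMultiplicity t))
    (h2 : ∀ g : ℚ_[p][X], g.Monic → Irreducible g →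
      (a : ℤ) ∣ (multiplicity g (Q.map (Int.castRingHom ℚ_[p])) : ℤ) * (g.coeff 0).valuation) :
    IsAVPoly p a P' := by
  refine ⟨hm.of_mul_monic_left (hP ▸ h.1), fun z hz => h.2.1 z (by rw [hP, map_mul, hz, mul_zero]),
    fun t => ?_, fun g hg hg' => ?_⟩
  · have h3 := h.2.2.1 t
    have h4 := (h.1.map (Int.castRingHom ℝ)).ne_zero
    rw [hP, Polynomial.map_mul] at h3 h4
    rw [rootMultiplicity_mul h4] at h3
    exact (Nat.even_add.1 h3).1 (h1 t)
  · have h3 := h.2.2.2 g hg hg'
    have h4 := (h.1.map (Int.castRingHom ℚ_[p])).ne_zero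
    rw [hP, Polynomial.map_mul] at h3 h4
    rw [multiplicity_mul hg'.prime (finiteMultiplicity_of_degree_pos_of_monic
      (degree_pos_of_irreducible hg') hg h4), Nat.cast_add, add_mul] at h3
    exact (dvd_add_right (h2 g hg hg')).1 h3

theorem quad_map {F : Type*} [CommRing F] {t q : ℤ} {u v : F} (h1 : u + v = t) (h2 : u * v = q) :
    (X ^ 2 - C t * X + C q : ℤ[X]).map (Int.castRingHom F) = (X - C u) * (X - C v) := by
  simp only [Polynomial.map_add, Polynomial.map_sub, Polynomial.map_mul, Polynomial.map_pow,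
    map_X, map_C]
  rw [eq_intCast (Int.castRingHom F), eq_intCast (Int.castRingHom F), ← h1, ← h2, C_add, C_mul]
  ring

theorem mult_lin {g : ℚ_[p][X]} (hg : g.Monic) (hg' : Irreducible g) (β : ℚ_[p]) :
    (multiplicity g (X - C β) : ℤ) * (g.coeff 0).valuation =
      if g = X - C β then β.valuation else 0 := by
  split_ifs with h
  · rw [h, multiplicity_self, coeff_sub, coeff_X_zero, coeff_C_zero, zero_sub, valuation_neg']
    simp
  · rw [multiplicity_eq_zero.2 fun hd => h (eq_of_monic_of_associated hg (monic_X_sub_C β)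
      (hg'.associated_of_dvd (irreducible_X_sub_C β) hd))]
    simp

theorem WD.factor [IsGalois ℚ E] (h : WD p a P A) (ι : E →+* PadicAlgCl p) {x y : E}
    {B : Multiset E} (hA : A = x ::ₘ y ::ₘ B) (hy : sl ι a y = -sl ι a x) (hE : Eig (sl ι a x))
    (hz : sl ι a x = 0 ∨ |sl ι a x 1| = 1 / 2) :
    ∃ P' : ℤ[X], IsAVPoly p a P' ∧
      P'.map (Int.castRingHom E) = (B.map fun y => X - C y).prod := by
  have xA : x ∈ A := by simp [hA]
  have yA : y ∈ A := by simp [hA]
  obtain ⟨c, hc⟩ := h.conj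
  have hxy : x * y = (p : E) ^ a := by
    rw [← hc x xA, h.inj ι yA (h.aut_mem c xA)
      (hy.trans (h.sl_conj ι xA (h.aut_mem c xA) (hc x xA)).symm)]
  have hEy : Eig (sl ι a y) := hE.pm (Or.inr hy)
  obtain ⟨t, ht⟩ : ∃ t : ℤ, (t : E) = x + y := by
    refine int_of_fixed ((h.integral xA).add (h.integral yA)) fun σ => ?_
    have h1 := congrArg σ hxy
    rw [map_mul, map_pow, map_natCast, ← hxy] at h1
    rw [map_add]
    rcases hE σ with h2 | h2
    · have h3 : σ x = x := h.inj ι (h.aut_mem σ xA) xA h2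
      rw [h3] at h1 ⊢
      rw [mul_left_cancel₀ (h.ne_zero xA) h1]
    · have h3 : σ x = y := h.inj ι (h.aut_mem σ xA) yA (h2.trans hy.symm)
      rw [h3, mul_comm x] at h1
      rw [h3, mul_left_cancel₀ (h.ne_zero yA) h1, add_comm]
  have hq := quad_map (F := E) (t := t) (q := (p : ℤ) ^ a) ht.symm (by rw [hxy]; simp)
  have hm : (X ^ 2 - C t * X + C ((p : ℤ) ^ a) : ℤ[X]).Monic := by monicity!
  have hprod : P.map (Int.castRingHom E) =
      (X - C x) * (X - C y) * (B.map fun y => X - C y).prod := by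
    rw [h.prod, hA, Multiset.map_cons, Multiset.map_cons, Multiset.prod_cons, Multiset.prod_cons,
      mul_assoc]
  obtain ⟨P', hP'⟩ := (map_dvd_map (Int.castRingHom E) (RingHom.injective_int _) hm).1
    ⟨_, by rw [hprod, hq]⟩
  refine ⟨P', h.av.of_mul hP' hm (fun s => ?_) fun g hg hg' => ?_, ?_⟩
  · by_cases h0 : ((X ^ 2 - C t * X + C ((p : ℤ) ^ a) : ℤ[X]).map
        (Int.castRingHom ℝ)).IsRoot s
    · have h1 : s ^ 2 - t * s + (p : ℝ) ^ a = 0 := by simpa using h0
      have h2 := h.av.2.1 s (by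
        rw [hP', map_mul]
        apply mul_eq_zero_of_left
        simp only [map_add, map_sub, map_mul, map_pow, aeval_X, eq_intCast,
          map_intCast, map_natCast]
        exact_mod_cast congrArg Complex.ofReal h1)
      rw [Complex.norm_real, Real.norm_eq_abs, sq_abs] at h2
      have h3 : s ≠ 0 := by
        rintro rfl
        have hp0 : (0 : ℝ) < p := by exact_mod_cast hp.out.pos
        linarith [pow_pos hp0 a]
      rw [quad_map (u := s) (v := s) (mul_left_cancel₀ h3 (by linarith))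
        (by push_cast; linarith), ← sq, rootMultiplicity_X_sub_C_pow]
      exact even_two
    · rw [rootMultiplicity_eq_zero h0]
      exact Even.zero
  · have hctx := h.ctx ι
    obtain ⟨β, hβ⟩ := h.padic ι xA (hctx.eig_fix (Multiset.mem_map_of_mem _ xA) hE)
    obtain ⟨γ, hγ⟩ := h.padic ι yA (hctx.eig_fix (Multiset.mem_map_of_mem _ yA) hEy)
    have h1 : β + γ = t := (algebraMap ℚ_[p] (PadicAlgCl p)).injective (by
      rw [map_add, hβ, hγ, ← map_add, ← ht, map_intCast, map_intCast])
    have h2 : β * γ = ((p : ℤ) ^ a : ℤ) := (algebraMap ℚ_[p] (PadicAlgCl p)).injective (by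
      rw [map_mul, hβ, hγ, ← map_mul, hxy]
      simp)
    have v1 := val_eq ι h.pos (h.ne_zero xA) hβ
    have v2 := val_eq ι h.pos (h.ne_zero yA) hγ
    rw [quad_map h1 h2, multiplicity_mul hg'.prime (finiteMultiplicity_of_degree_pos_of_monic
      (degree_pos_of_irreducible hg') hg
      ((monic_X_sub_C β).mul (monic_X_sub_C γ)).ne_zero), Nat.cast_add, add_mul,
      mult_lin hg hg', mult_lin hg hg']
    rcases hz with hz | hz
    · have h3 : y = x := h.inj ι yA xA (by rw [hy, hz, neg_zero])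
      have h4 : γ = β := (algebraMap ℚ_[p] (PadicAlgCl p)).injective (by rw [hβ, hγ, h3])
      rw [h4]
      split_ifs
      · rw [hz, Pi.zero_apply] at v1
        have h5 : β.valuation + β.valuation = a := by
          have : (β.valuation : ℝ) + β.valuation = a := by linarith
          exact_mod_cast this
        rw [h5]
      · simp
    · rw [hy, Pi.neg_apply] at v2
      have key : ∀ (w : ℤ) (s : ℝ), |s| = 1 / 2 → (w : ℝ) = a * (s + 1 / 2) → (a : ℤ) ∣ w := by
        intro w s hs hw
        rcases (abs_eq (by norm_num)).1 hs with h3 | h3 <;> rw [h3] at hw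
        · have : (w : ℝ) = (a : ℤ) := by
            push_cast
            linarith
          rw [Int.cast_injective this]
        · have : (w : ℝ) = (0 : ℤ) := by
            push_cast
            linarith
          rw [Int.cast_injective this]
          exact dvd_zero _
      refine dvd_add ?_ ?_ <;> split_ifs
      · exact key _ _ hz v1
      · exact dvd_zero _
      · exact key _ _ (by rwa [abs_neg]) v2
      · exact dvd_zero _
  · have h1 := congrArg (Polynomial.map (Int.castRingHom E)) hP'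
    rw [hprod, Polynomial.map_mul, hq] at h1
    exact (mul_left_cancel₀ ((monic_X_sub_C x).mul (monic_X_sub_C y)).ne_zero h1).symm

theorem map_injOn {β γ : Type*} [Nonempty β] {f : β → γ} {S : Set β} (hf : Set.InjOn f S)
    {s t : Multiset β} (hs : ∀ x ∈ s, x ∈ S) (ht : ∀ x ∈ t, x ∈ S) (h : s.map f = t.map f) :
    s = t := by
  have key : ∀ u : Multiset β, (∀ x ∈ u, x ∈ S) → (u.map f).map (Function.invFunOn f S) = u := by
    intro u hu
    rw [Multiset.map_map]
    conv_rhs => rw [← Multiset.map_id u]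
    exact Multiset.map_congr rfl fun x hx => hf.leftInvOn_invFunOn (hu x hx)
  rw [← key s hs, h, key t ht]

/-- The roots of the minimal polynomial of a root with four conjugates. -/
theorem WD.minpoly_roots [IsGalois ℚ E] (h : WD p a P A) (ι : E →+* PadicAlgCl p) {x : E}
    (hx : x ∈ A) {b : (E ≃ₐ[ℚ] E) → ℝ} (h0 : sl ι a x ≠ 0) (h1 : ¬ PM (sl ι a x) b)
    (h2 : b ∈ orb (sl ι a x))
    (h3 : ∀ τ, PM (act τ (sl ι a x)) (sl ι a x) ∨ PM (act τ (sl ι a x)) b) :
    ∃ M : Multiset E, (∀ y ∈ M, y ∈ A) ∧ M.map (sl ι a) = L (sl ι a x) + L b ∧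
      (minpoly ℤ x).map (Int.castRingHom E) = (M.map fun y => X - C y).prod := by
  have hi := h.integral hx
  have hu : IsIntegral ℚ x := hi.tower_top
  have e : (minpoly ℤ x).map (Int.castRingHom E) = (minpoly ℚ x).map (algebraMap ℚ E) := by
    rw [minpoly.isIntegrallyClosed_eq_field_fractions' ℚ hi, Polynomial.map_map]
    congr 1
    exact RingHom.ext_int _ _
  have hm := (minpoly.monic hu).map (algebraMap ℚ E)
  have hsp : ((minpoly ℚ x).map (algebraMap ℚ E)).Splits := Normal.splits inferInstance x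
  have hmem : ∀ y, y ∈ ((minpoly ℚ x).map (algebraMap ℚ E)).roots ↔ ∃ σ : E ≃ₐ[ℚ] E, σ x = y := by
    intro y
    rw [mem_roots hm.ne_zero, IsRoot.def, eval_map_algebraMap]
    refine ⟨minpoly.exists_algEquiv_of_root' hu.isAlgebraic, ?_⟩
    rintro ⟨σ, rfl⟩
    rw [aeval_algHom_apply, minpoly.aeval, map_zero]
  have hA : ∀ y ∈ ((minpoly ℚ x).map (algebraMap ℚ E)).roots, y ∈ A := by
    intro y hy
    obtain ⟨σ, rfl⟩ := (hmem y).1 hy
    exact h.aut_mem σ hx
  refine ⟨_, hA, ?_, e.trans (hsp.eq_prod_roots_of_monic hm)⟩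
  have hb : b ≠ 0 := by
    rintro rfl
    exact h0 (nq_eq_zero (by rw [← nq_orb h2]; simp [nq]))
  refine (Multiset.Nodup.ext ?_ ?_).2 fun w => ?_
  · exact Multiset.Nodup.map_on (fun y hy z hz => h.inj ι (hA y hy) (hA z hz))
      (nodup_roots (Separable.map (Algebra.IsSeparable.isSeparable ℚ x)))
  · rw [Multiset.nodup_iff_count_le_one]
    intro w
    rw [Multiset.count_add]
    by_cases h4 : PM w (sl ι a x)
    · rw [count_L_not (y := b) fun h5 => h1 (h4.symm.trans h5), ← L_eq h4, count_L_self]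
      rintro rfl
      rcases h4.symm with h5 | h5
      · exact h0 h5
      · exact h0 (by simpa using h5)
    · rw [count_L_not h4]
      by_cases h5 : PM w b
      · rw [← L_eq h5, count_L_self]
        rintro rfl
        rcases h5.symm with h6 | h6
        · exact hb h6
        · exact hb (by simpa using h6)
      · rw [count_L_not h5]
        omega
  · have xR : sl ι a x ∈ A.map (sl ι a) := Multiset.mem_map_of_mem _ hx
    rw [Multiset.mem_map, Multiset.mem_add, mem_L, mem_L]
    constructor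
    · rintro ⟨y, hy, rfl⟩
      obtain ⟨σ, rfl⟩ := (hmem y).1 hy
      exact h3 σ
    · intro h4
      have h5 : w ∈ orb (sl ι a x) :=
        h4.elim ((h.ctx ι).orb_pm xR (self_mem_orb _)) ((h.ctx ι).orb_pm xR h2)
      obtain ⟨τ, rfl⟩ := mem_orb.1 h5
      exact ⟨τ x, (hmem _).2 ⟨τ, rfl⟩, rfl⟩

theorem natDegree_of_prod {Q : ℤ[X]} {M : Multiset E}
    (h : Q.map (Int.castRingHom E) = (M.map fun y => X - C y).prod) : Q.natDegree = M.card := by
  rw [← natDegree_map_eq_of_injective (RingHom.injective_int (Int.castRingHom E)), h,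
    natDegree_multiset_prod_X_sub_C_eq_card]

omit [NumberField E] in
theorem aeval_of_prod {Q : ℤ[X]} {M : Multiset E}
    (h : Q.map (Int.castRingHom E) = (M.map fun y => X - C y).prod) (ψ : E →+* ℂ) {y : E}
    (hy : y ∈ M) : aeval (ψ y) Q = 0 := by
  have h1 : aeval y Q = 0 := by
    have h2 : y ∈ (Q.map (Int.castRingHom E)).roots := by
      rwa [h, roots_multiset_prod_X_sub_C]
    have h3 := (mem_roots'.1 h2).2
    rwa [IsRoot.def, eval_map] at h3
  rw [← map_zero ψ, ← h1]
  exact aeval_algHom_apply ψ.toIntAlgHom y Q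

theorem WD.exceptional [IsGalois ℚ E] (h : WD p a P A) (ι : E →+* PadicAlgCl p)
    (hE : Exc (A.map (sl ι a))) : IsExceptional ((p : ℤ) ^ a) P := by
  obtain ⟨u, v, w, d, hR, hs, n1, n2, u0, w0, o1, o2, s1, s2⟩ := hE
  have get : ∀ z, z ∈ L u + L v + L w + L d + L 0 → ∃ x ∈ A, sl ι a x = z := fun z hz =>
    Multiset.mem_map.1 (hR ▸ hz)
  obtain ⟨x, hx, rfl⟩ := get u (by simp [mem_L, PM.refl])
  obtain ⟨y, hy, rfl⟩ := get w (by simp [mem_L, PM.refl])
  obtain ⟨r, hr, r0⟩ := get 0 (by simp [mem_L, PM.refl])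
  obtain ⟨M, hM, eM, pM⟩ := h.minpoly_roots ι hx u0 n1 o1 s1
  obtain ⟨N, hN, eN, pN⟩ := h.minpoly_roots ι hy w0 n2 o2 s2
  obtain ⟨x1, m1, e1⟩ := Multiset.mem_map.1
    (show sl ι a x ∈ M.map (sl ι a) by simp [eM, mem_L, PM.refl])
  obtain ⟨x2, m2, e2⟩ := Multiset.mem_map.1 (show v ∈ M.map (sl ι a) by simp [eM, mem_L, PM.refl])
  obtain ⟨x3, m3, e3⟩ := Multiset.mem_map.1
    (show -sl ι a y ∈ N.map (sl ι a) by simp [eN, mem_L, pm_neg])
  obtain ⟨n, rfl⟩ := int_of_fixed (h.integral hr) fun σ =>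
    h.inj ι (h.aut_mem σ hr) hr (by rw [← sl_act, r0, map_zero])
  have hA : A = M + N + {(n : E), (n : E)} := by
    refine map_injOn (h.inj ι) (fun _ hz => hz) (fun z hz => ?_) ?_
    · simp only [Multiset.mem_add, Multiset.insert_eq_cons, Multiset.mem_cons,
        Multiset.mem_singleton, or_self] at hz
      rcases hz with (hz | hz) | rfl
      exacts [hM z hz, hN z hz, hr]
    · rw [hR, Multiset.map_add, Multiset.map_add, eM, eN]
      simp only [Multiset.insert_eq_cons, Multiset.map_cons, Multiset.map_singleton, r0, L,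
        neg_zero, add_assoc]
  obtain ⟨ψ⟩ := exists_complex E
  have cM := congrArg Multiset.card eM
  have cN := congrArg Multiset.card eN
  simp only [Multiset.card_map, Multiset.card_add, L, Multiset.card_pair] at cM cN
  have hne : minpoly ℤ x ≠ minpoly ℤ y := by
    intro he
    rw [he, pN] at pM
    have h1 := congrArg Polynomial.roots pM
    rw [roots_multiset_prod_X_sub_C, roots_multiset_prod_X_sub_C] at h1
    have h2 : sl ι a y ∈ L (sl ι a x) + L v := by
      rw [← eM, ← h1, eN]
      simp [mem_L, PM.refl]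
    have f1 := nq_orb o1
    have f2 := nq_pos u0
    have c1 := dotProduct_comm v (sl ι a x)
    rw [Multiset.mem_add, mem_L, mem_L] at h2
    rcases h2 with (h2 | h2) | (h2 | h2) <;> rw [h2] at hs <;>
      have g := gram hs (sl ι a x) v v <;>
      simp only [nq_dot, add_dotProduct, neg_dotProduct, zero_dotProduct] at g f1 f2 <;>
      linarith [g.1, g.2.1]
  refine ⟨minpoly ℤ x, minpoly ℤ y, n, ψ x1, ψ x2, ψ x3, minpoly.monic (h.integral hx),
    minpoly.monic (h.integral hy), minpoly.irreducible (h.integral hx),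
    minpoly.irreducible (h.integral hy), hne, (natDegree_of_prod pM).trans cM,
    (natDegree_of_prod pN).trans cN, ?_, ?_, aeval_of_prod pM ψ m1, aeval_of_prod pM ψ m2,
    aeval_of_prod pN ψ m3, fun hh => ?_, fun hh => ?_, ?_⟩
  · have := h.sq_of_zero ι hr r0
    rw [sq]
    exact_mod_cast this
  · apply Polynomial.map_injective _ (RingHom.injective_int (Int.castRingHom E))
    rw [h.prod, hA]
    simp [pM, pN, sq]
    ring
  · apply n1
    rw [← e1, ← e2, ψ.injective hh]
    exact PM.refl _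
  · apply n1
    have h1 : x1 * x2 = (p : E) ^ a := ψ.injective (by rw [map_mul, hh]; simp)
    rw [← e1, ← e2, h.sl_conj ι (hM _ m1) (hM _ m2) h1]
    exact (pm_neg _).symm
  · have h1 := h.prod_eq ι (S := {x1, x2}) (T := {(n : E), x3})
      (by simpa using ⟨hM _ m1, hM _ m2⟩) (by simpa using ⟨hr, hN _ m3⟩) rfl (by
        simp only [Multiset.insert_eq_cons, Multiset.map_cons, Multiset.map_singleton,
          Multiset.sum_cons, Multiset.sum_singleton, e1, e2, e3, r0, zero_add]
        exact eq_neg_of_add_eq_zero_left hs)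
    simpa using congrArg ψ h1

/-- The classification of multiplicative relations among the roots. -/
theorem WD.main [IsGalois ℚ E] (h : WD p a P A) (hc : A.card = 10) {I T : Multiset E}
    (hA : A = I + T) {i N : ℕ} (hi : I.card = 2 * i) (hne : I ≠ 0) (hN : 0 < N)
    (hrel : I.prod ^ N = ((p : E) ^ a) ^ (i * N))
    (hno : ∀ x y, {x, y} ≤ I → x * y ≠ (p : E) ^ a) :
    IsExceptional ((p : ℤ) ^ a) P ∨ I.card = 4 ∧ ∃ (x y : E) (T' : Multiset E) (P' : ℤ[X]),
      T = x ::ₘ y ::ₘ T' ∧ IsAVPoly p a P' ∧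
        P'.map (Int.castRingHom E) = ((I + T').map fun y => X - C y).prod := by
  obtain ⟨ι⟩ := exists_padic p E
  have hI : ∀ x ∈ I, x ∈ A := fun x hx => by simp [hA, hx]
  obtain ⟨c, hc'⟩ := h.conj
  rcases core (h.ctx ι) (by simpa using hc) (h.even ι) (I := I.map (sl ι a))
    (Multiset.map_le_map (by simp [hA])) (by simp [hi]) (by simpa using hne) (by
      funext σ
      have h1 := congrArg (fun z => Real.log ‖ι (σ z)‖) hrel
      simp only [← pow_mul, log_norm_q] at h1
      rw [map_pow, map_pow, norm_pow, Real.log_pow] at h1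
      have h2 : (N : ℝ) ≠ 0 := by exact_mod_cast hN.ne'
      have h3 : Real.log ‖ι (σ I.prod)‖ = -(i * (a * Real.log p)) := by
        apply mul_left_cancel₀ h2
        rw [h1]
        push_cast
        ring
      rw [sum_sl ι I fun x hx => h.ne_zero (hI x hx), h3, hi, neg_neg,
        mul_div_cancel_right₀ _ (den_pos h.pos).ne']
      simp) (by
      intro z hz
      obtain ⟨x, hx, rfl⟩ := Multiset.mem_map.1 (Multiset.mem_of_le hz (mem_L.2 (PM.refl z)))
      obtain ⟨I', rfl⟩ := Multiset.exists_cons_of_mem hx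
      rw [Multiset.map_cons, L, Multiset.insert_eq_cons, Multiset.cons_le_cons_iff,
        Multiset.singleton_le, Multiset.mem_map] at hz
      obtain ⟨y, hy, e⟩ := hz
      refine hno x y (Multiset.cons_le_cons _ (Multiset.singleton_le.2 hy)) ?_
      have xA := hI x hx
      rw [← hc' x xA, h.inj ι (hI y (Multiset.mem_cons_of_mem hy)) (h.aut_mem c xA)
        (e.trans (h.sl_conj ι xA (h.aut_mem c xA) (hc' x xA)).symm)]) with
    h1 | ⟨h0, z, h1, h2, h3⟩
  · exact Or.inl (h.exceptional ι h1)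
  · refine Or.inr ⟨by simpa using h0, ?_⟩
    rw [hA, Multiset.map_add, bind_L_eq, add_assoc, add_right_inj] at h1
    obtain ⟨x, hx, rfl⟩ := Multiset.mem_map.1 (show z ∈ T.map (sl ι a) by simp [h1, mem_L, PM.refl])
    obtain ⟨T1, rfl⟩ := Multiset.exists_cons_of_mem hx
    rw [Multiset.map_cons, L, Multiset.insert_eq_cons, Multiset.add_cons,
      Multiset.cons_inj_right] at h1
    obtain ⟨y, hy, e⟩ := Multiset.mem_map.1 (show -sl ι a x ∈ T1.map (sl ι a) by simp [h1])
    obtain ⟨T', rfl⟩ := Multiset.exists_cons_of_mem hy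
    obtain ⟨P', h4, h5⟩ := h.factor ι (B := I + T') (by simp [hA]) e h2 h3
    exact ⟨x, y, T', P', rfl, h4, h5⟩

end Pool.Agent.P.MP_ee618e_ag
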