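import Pool.Agent.P.MP_ee618e_ag.Factor
import Pool.Agent.P.MP_ee618e_ag.Ext

/-!
Generators of the algebra of Tate classes in dimension five.
-/

set_option autoImplicit false

namespace Pool.Agent.P.MP_ee618e_ag

open Polynomial Classical Module

variable {p a : ℕ} [hp : Fact p.Prime] {P : ℤ[X]} {K : Type*} [Field K] {α : Fin 10 → K}

theorem map_prod_of_inj {E : Type*} [Field E] (f : E →+* K) {Q : ℤ[X]} {β : Fin 10 → E}
    (hβ : ∀ i, f (β i) = α i) (J : Finset (Fin 10)) :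
    Q.map (Int.castRingHom E) = ((J.val.map β).map fun y => X - C y).prod ↔
      Q.map (Int.castRingHom K) = ∏ j ∈ J, (X - C (α j)) := by
  rw [← (Polynomial.map_injective f f.injective).eq_iff, Polynomial.map_map,
    RingHom.ext_int (f.comp _) (Int.castRingHom K), Multiset.map_map, Polynomial.map_multiset_prod,
    Multiset.map_map, Finset.prod_eq_multiset_prod]
  simp [hβ]

/-- The number field generated by the roots. -/
theorem exists_field [CharZero K] (ha : 0 < a) (hP : IsAVPoly p a P)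
    (hα : P.map (Int.castRingHom K) = ∏ i, (X - C (α i)))
    (htf : ∀ x ∈ Submonoid.closure (Set.range α), ∀ y ∈ Submonoid.closure (Set.range α),
      ∀ n : ℕ, 0 < n → x ^ n = y ^ n → x = y) :
    ∃ (E : IntermediateField ℚ K) (_ : NumberField E) (_ : IsGalois ℚ E) (β : Fin 10 → E),
      (∀ i, (algebraMap E K) (β i) = α i) ∧ WD p a P (Finset.univ.val.map β) := by
  let Q : ℚ[X] := P.map (Int.castRingHom ℚ)
  have hQ : Q.map (algebraMap ℚ K) = ∏ i, (X - C (α i)) := by
    rw [← hα, Polynomial.map_map, RingHom.ext_int (RingHom.comp _ _) (Int.castRingHom K)]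
  have hs : (Q.map (algebraMap ℚ K)).Splits := by
    rw [hQ]
    exact Splits.prod fun i _ => Splits.X_sub_C _
  have hsf : IsSplittingField ℚ (IntermediateField.adjoin ℚ (Q.rootSet K)) Q := by
    convert IntermediateField.adjoin_rootSet_isSplittingField hs
    exact Subsingleton.elim _ _
  have hfd := IsSplittingField.finiteDimensional (IntermediateField.adjoin ℚ (Q.rootSet K)) Q
  have hn := Normal.of_isSplittingField (E := IntermediateField.adjoin ℚ (Q.rootSet K)) Q
  have hmem : ∀ i, α i ∈ IntermediateField.adjoin ℚ (Q.rootSet K) := fun i =>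
    IntermediateField.subset_adjoin _ _ (by
      rw [mem_rootSet]
      refine ⟨(hP.1.map _).ne_zero, ?_⟩
      rw [← eval_map_algebraMap, hQ, eval_prod]
      exact Finset.prod_eq_zero (Finset.mem_univ i) (by simp))
  refine ⟨_, ⟨⟩, ⟨⟩, fun i => ⟨α i, hmem i⟩, fun _ => rfl, ha, hP,
    (map_prod_of_inj (algebraMap _ K) (fun _ => rfl) _).2 hα, fun x hx y hy n hn hxy => ?_⟩
  have key : ∀ z : IntermediateField.adjoin ℚ (Q.rootSet K),
      z ∈ Submonoid.closure {y | y ∈ Finset.univ.val.map fun i => (⟨α i, hmem i⟩ :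
        IntermediateField.adjoin ℚ (Q.rootSet K))} → z.1 ∈ Submonoid.closure (Set.range α) := by
    intro z hz
    induction hz using Submonoid.closure_induction with
    | mem w hw =>
      obtain ⟨i, -, rfl⟩ := Multiset.mem_map.1 (Set.mem_ofPred_eq ▸ hw)
      exact Submonoid.subset_closure ⟨i, rfl⟩
    | one => exact one_mem _
    | mul u v _ _ hu hv => exact mul_mem hu hv
  exact Subtype.ext (htf _ (key x hx) _ (key y hy) n hn (by exact_mod_cast hxy))

theorem pair_idx {E : Type*} {β : Fin 10 → E} {J : Finset (Fin 10)} {x y : E} {T : Multiset E}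
    (h : J.val.map β = x ::ₘ y ::ₘ T) : ∃ j ∈ J, ∃ k ∈ J, j ≠ k ∧ β j = x ∧ β k = y ∧
      ((J.erase j).erase k).val.map β = T := by
  obtain ⟨j, hj, h1, h2⟩ := (Multiset.map_eq_cons _ _ _ _).2 h
  obtain ⟨k, hk, h3, h4⟩ := (Multiset.map_eq_cons _ _ _ _).2 h2
  have h5 : k ∈ J.erase j := hk
  exact ⟨j, hj, k, Finset.mem_of_mem_erase h5, (Finset.ne_of_mem_erase h5).symm, h1, h3, h4⟩

theorem idx_main [CharZero K] (ha : 0 < a) (hP : IsAVPoly p a P)
    (hα : P.map (Int.castRingHom K) = ∏ i, (X - C (α i)))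
    (htf : ∀ x ∈ Submonoid.closure (Set.range α), ∀ y ∈ Submonoid.closure (Set.range α),
      ∀ n : ℕ, 0 < n → x ^ n = y ^ n → x = y)
    (hE : ¬ IsExceptional ((p : ℤ) ^ a) P) {J : Finset (Fin 10)} {i N : ℕ} (hi : J.card = 2 * i)
    (hne : J ≠ ∅) (hN : 0 < N) (hrel : (∏ j ∈ J, α j) ^ N = ((p : K) ^ a) ^ (i * N))
    (hno : ∀ j ∈ J, ∀ k ∈ J, j ≠ k → α j * α k ≠ (p : K) ^ a) :
    J.card = 4 ∧ ∃ (J' : Finset (Fin 10)) (P' : ℤ[X]), J ⊆ J' ∧ J'.card = 8 ∧ IsAVPoly p a P' ∧
      P'.map (Int.castRingHom K) = ∏ j ∈ J', (X - C (α j)) := by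
  obtain ⟨E, _, _, β, hβ, h⟩ := exists_field ha hP hα htf
  have hA : Finset.univ.val.map β = J.val.map β + Jᶜ.val.map β := by
    rw [← Multiset.map_add, ← Finset.disjUnion_val _ _ disjoint_compl_right]
    simp
  obtain ⟨h1, x, y, T, P', h2, h3, h4⟩ := (h.main (by simp) hA (i := i) (N := N) (by simpa using hi)
    (by simpa using hne) hN ((algebraMap E K).injective (by
      rw [map_pow, ← Finset.prod_eq_multiset_prod, map_prod]
      simpa [hβ] using hrel)) (by
      intro x y hxy hq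
      obtain ⟨T, hT⟩ := Multiset.le_iff_exists_add.1 hxy
      obtain ⟨j, hj, k, hk, h1, rfl, rfl, -⟩ := pair_idx (x := x) (y := y) (T := T) (by simpa using hT)
      refine hno j hj k hk h1 ?_
      rw [← hβ, ← hβ, ← map_mul, hq]
      simp)).resolve_left hE
  have h5 : J.card = 4 := by simpa using h1
  obtain ⟨j, hj, k, hk, h6, -, -, h7⟩ := pair_idx h2
  have hd : Disjoint J ((Jᶜ.erase j).erase k) :=
    disjoint_compl_right.mono_right ((Finset.erase_subset _ _).trans (Finset.erase_subset _ _))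
  refine ⟨h5, J.disjUnion _ hd, P', by simp, ?_, h3, (map_prod_of_inj _ hβ _).1 ?_⟩
  · rw [Finset.card_disjUnion, Finset.card_erase_of_mem (Finset.mem_erase.2 ⟨h6.symm, hk⟩),
      Finset.card_erase_of_mem hj, Finset.card_compl, h5]
    simp
  · rw [h4, Finset.disjUnion_val, Multiset.map_add β, h7]

variable {V : Type*} [AddCommGroup V] [Module K V] {b : Basis (Fin 10) K V} {F : V →ₗ[K] V}

theorem generated [CharZero K] (ha : 0 < a) (hP : IsAVPoly p a P)
    (hF : ∀ j, F (b j) = α j • b j) (hα : P.map (Int.castRingHom K) = ∏ i, (X - C (α i)))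
    (htf : ∀ x ∈ Submonoid.closure (Set.range α), ∀ y ∈ Submonoid.closure (Set.range α),
      ∀ n : ℕ, 0 < n → x ^ n = y ^ n → x = y)
    (hE : ¬ IsExceptional ((p : ℤ) ^ a) P) (i : ℕ) :
    TateClasses F ((p : K) ^ a) i ⊆ Algebra.adjoin K (TateClasses F ((p : K) ^ a) 1 ∪
      TateClasses F ((p : K) ^ a) 2 ∩ FourfoldClasses p a b α) := by
  have q0 : (p : K) ^ a ≠ 0 := pow_ne_zero _ (by exact_mod_cast hp.out.ne_zero)
  have key : ∀ (i N : ℕ) (J : Finset (Fin 10)), J.card = 2 * i → 0 < N →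
      (∏ j ∈ J, α j) ^ N = ((p : K) ^ a) ^ (i * N) →
      b.ExteriorAlgebra J ∈ Algebra.adjoin K (TateClasses F ((p : K) ^ a) 1 ∪
        TateClasses F ((p : K) ^ a) 2 ∩ FourfoldClasses p a b α) := by
    intro i
    induction i with
    | zero =>
      intro N J hJ _ _
      rw [Finset.card_eq_zero.1 hJ, e_empty]
      exact one_mem _
    | succ i ih =>
      intro N J hJ hN hrel
      by_cases hno : ∀ j ∈ J, ∀ k ∈ J, j ≠ k → α j * α k ≠ (p : K) ^ a
      · obtain ⟨h1, J', P', h2, h3, h4, h5⟩ := idx_main ha hP hα htf hE hJ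
          (by rintro rfl; simp at hJ) hN hrel hno
        obtain rfl : i = 1 := by omega
        exact Algebra.subset_adjoin (Or.inr ⟨e_tate hF hN hJ hrel, J', P', h3, h4, h5,
          e_mem_adjoin b h2⟩)
      · push Not at hno
        obtain ⟨j, hj, k, hk, h1, h2⟩ := hno
        have hs : {j, k} ⊆ J := by
          intro x hx
          simp only [Finset.mem_insert, Finset.mem_singleton] at hx
          rcases hx with rfl | rfl <;> assumption
        rw [← Finset.union_sdiff_of_subset hs]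
        refine e_union_mem b _ Finset.disjoint_sdiff
          (Algebra.subset_adjoin (Or.inl (e_tate hF one_pos (Finset.card_pair h1) ?_)))
          (ih N _ ?_ hN ?_)
        · rw [Finset.prod_pair h1, h2, mul_one]
        · rw [Finset.card_sdiff_of_subset hs, Finset.card_pair h1]
          omega
        · rw [← Finset.prod_sdiff hs, Finset.prod_pair h1, h2, mul_pow, add_mul, one_mul,
            pow_add] at hrel
          exact mul_right_cancel₀ (pow_ne_zero _ q0) hrel
  intro x hx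
  rw [SetLike.mem_coe, ← Subalgebra.mem_toSubmodule]
  refine Submodule.span_le.2 ?_ (b.ExteriorAlgebra.mem_span_repr_support x)
  rintro _ ⟨J, hJ, rfl⟩
  obtain ⟨h1, N, hN, h2⟩ := supp_tate hF hx hJ
  exact key i N J h1 hN h2

theorem dvd_of_root {Q S : ℤ[X]} (hm : Q.Monic) (hi : Irreducible Q) {z : ℂ} (h1 : aeval z Q = 0)
    (h2 : aeval z S = 0) : Q ∣ S := by
  have hz : IsIntegral ℤ z := ⟨Q, hm, h1⟩
  have h3 := eq_of_monic_of_associated (minpoly.monic hz) hm
    ((minpoly.irreducible hz).associated_of_dvd hi (minpoly.isIntegrallyClosed_dvd hz h1))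
  rw [← h3]
  exact minpoly.isIntegrallyClosed_dvd hz h2

theorem not_root {Q S : ℤ[X]} (hm : Q.Monic) (hi : Irreducible Q) (hm' : S.Monic)
    (hi' : Irreducible S) (hne : Q ≠ S) {z : ℂ} (h1 : aeval z Q = 0) : aeval z S ≠ 0 := fun h2 =>
  hne (eq_of_monic_of_associated hm hm' (hi.associated_of_dvd hi' (dvd_of_root hm hi h1 h2)))

theorem not_generated [CharZero K] (ha : 0 < a) (hP : IsAVPoly p a P)
    (hF : ∀ j, F (b j) = α j • b j) (hα : P.map (Int.castRingHom K) = ∏ i, (X - C (α i)))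
    (htf : ∀ x ∈ Submonoid.closure (Set.range α), ∀ y ∈ Submonoid.closure (Set.range α),
      ∀ n : ℕ, 0 < n → x ^ n = y ^ n → x = y)
    (hE : IsExceptional ((p : ℤ) ^ a) P) :
    ¬ TateClasses F ((p : K) ^ a) 2 ⊆ Algebra.adjoin K (TateClasses F ((p : K) ^ a) 1 ∪
      TateClasses F ((p : K) ^ a) 2 ∩ FourfoldClasses p a b α) := by
  obtain ⟨E, _, _, β, hβ, h⟩ := exists_field ha hP hα htf
  obtain ⟨ψ⟩ := exists_complex E
  obtain ⟨c, hc⟩ := h.conj
  obtain ⟨P₁, P₂, r, z₁, z₂, z₃, m1, m2, i1, i2, hne, d1, d2, hr, hP', r1, r2, r3, n1, n2, hrel⟩ :=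
    hE
  have hr' : (r : ℂ) * r = (p : ℂ) ^ a := by
    rw [← sq]
    exact_mod_cast hr
  have q0 : (p : ℂ) ^ a ≠ 0 := pow_ne_zero _ (by exact_mod_cast hp.out.ne_zero)
  have r0 : (r : ℂ) ≠ 0 := fun h0 => q0 (by rw [← hr', h0, mul_zero])
  have get : ∀ z : ℂ, aeval z P = 0 → ∃ j, ψ (β j) = z := by
    intro z hz
    have h1 := (map_prod_of_inj (α := fun j => ψ (β j)) ψ (fun _ => rfl) _).1 h.prod
    rw [← eval_map_algebraMap, RingHom.ext_int (algebraMap ℤ ℂ) (Int.castRingHom ℂ), h1, eval_prod,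
      Finset.prod_eq_zero_iff] at hz
    obtain ⟨j, -, hj⟩ := hz
    exact ⟨j, Eq.symm (by simpa [sub_eq_zero] using hj)⟩
  have r4 : aeval ((starRingEnd ℂ) z₃) P₂ = 0 := by
    rw [← map_zero (starRingEnd ℂ), ← r3]
    exact aeval_algHom_apply (starRingEnd ℂ).toIntAlgHom z₃ P₂
  have r5 : aeval (r : ℂ) (X - C r : ℤ[X]) = 0 := by simp
  have hz : z₃ * (starRingEnd ℂ) z₃ = (p : ℂ) ^ a := by
    rw [Complex.mul_conj']
    exact_mod_cast congrArg Complex.ofReal (hP.2.1 z₃ (by simp [hP', r3]))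
  have l1 : X - C r ≠ P₁ := fun hh => by
    rw [← hh, natDegree_X_sub_C] at d1
    omega
  have l2 : X - C r ≠ P₂ := fun hh => by
    rw [← hh, natDegree_X_sub_C] at d2
    omega
  have il : Irreducible (X - C r : ℤ[X]) := irreducible_X_sub_C r
  have k1 := not_root (monic_X_sub_C r) il m1 i1 l1 r5
  have k2 := not_root (monic_X_sub_C r) il m2 i2 l2 r5
  have k3 := not_root m2 i2 m1 i1 hne.symm r3
  have k4 := not_root m2 i2 m1 i1 hne.symm r4
  obtain ⟨j₁, e1⟩ := get z₁ (by simp [hP', r1])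
  obtain ⟨j₂, e2⟩ := get z₂ (by simp [hP', r2])
  obtain ⟨j₃, e3⟩ := get ((starRingEnd ℂ) z₃) (by simp [hP', r4])
  obtain ⟨j₄, e4⟩ := get r (by simp [hP'])
  have ne : ∀ {j k : Fin 10} {Q : ℤ[X]}, aeval (ψ (β j)) Q = 0 → aeval (ψ (β k)) Q ≠ 0 → j ≠ k :=
    fun h1 h2 h3 => h2 (h3 ▸ h1)
  have a12 : j₁ ≠ j₂ := fun hh => n1 (by rw [← e1, ← e2, hh])
  have a13 : j₁ ≠ j₃ := ne (e1 ▸ r1) (e3 ▸ k4)
  have a14 : j₁ ≠ j₄ := ne (e1 ▸ r1) (e4 ▸ k1)
  have a23 : j₂ ≠ j₃ := ne (e2 ▸ r2) (e3 ▸ k4)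
  have a24 : j₂ ≠ j₄ := ne (e2 ▸ r2) (e4 ▸ k1)
  have a34 : j₃ ≠ j₄ := ne (e3 ▸ r4) (e4 ▸ k2)
  have hcard : ({j₁, j₂, j₃, j₄} : Finset (Fin 10)).card = 4 := by
    simp [a12, a13, a14, a23, a24, a34]
  have hpair : ∀ j ∈ ({j₁, j₂, j₃, j₄} : Finset (Fin 10)), ∀ k ∈ ({j₁, j₂, j₃, j₄} : Finset (Fin 10)),
      j ≠ k → ψ (β j) * ψ (β k) ≠ (p : ℂ) ^ a := by
    have c0 : (starRingEnd ℂ) z₃ ≠ 0 := fun h0 => q0 (by rw [← hz, h0, mul_zero])
    have b12 : z₁ * z₂ ≠ (p : ℂ) ^ a := by exact_mod_cast n2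
    have b3 : ∀ z, aeval z P₁ = 0 → z * (starRingEnd ℂ) z₃ ≠ (p : ℂ) ^ a := fun z h1 h2 =>
      k3 (by rwa [← mul_right_cancel₀ c0 (h2.trans hz.symm)])
    have b4 : ∀ z, z ≠ (r : ℂ) → z * r ≠ (p : ℂ) ^ a := fun z h1 h2 =>
      h1 (mul_right_cancel₀ r0 (h2.trans hr'.symm))
    have b13 := b3 _ r1
    have b23 := b3 _ r2
    have b14 := b4 z₁ fun hh => k1 (hh ▸ r1)
    have b24 := b4 z₂ fun hh => k1 (hh ▸ r2)
    have b34 := b4 ((starRingEnd ℂ) z₃) fun hh => k2 (hh ▸ r4)
    intro j hj k hk hjk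
    simp only [Finset.mem_insert, Finset.mem_singleton] at hj hk
    rcases hj with rfl | rfl | rfl | rfl <;> rcases hk with rfl | rfl | rfl | rfl <;>
      first
        | exact absurd rfl hjk
        | (simp only [e1, e2, e3, e4]
           first
            | assumption
            | (rw [mul_comm]
               assumption))
  intro hsub
  have h1 := hsub (e_tate hF one_pos (i := 2) hcard (by
    have h2 : β j₁ * (β j₂ * (β j₃ * β j₄)) = ((p : E) ^ a) ^ 2 := ψ.injective (by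
      simp only [map_mul, map_pow, map_natCast, e1, e2, e3, e4]
      rw [← mul_assoc, hrel, sq]
      conv_rhs => rw [← hz]; congr; rfl; rw [hz, ← hr']
      ring)
    have h3 := congrArg (algebraMap E K) h2
    simp only [map_mul, map_pow, map_natCast, hβ] at h3
    simp [a12, a13, a14, a23, a24, a34, h3]))
  have h2 : b.ExteriorAlgebra {j₁, j₂, j₃, j₄} ∈
      mono b {J | J ⊆ {j₁, j₂, j₃, j₄} → J = ∅} (fun _ => rfl) fun s hs t ht _ hst => by
        rw [hs (Finset.subset_union_left.trans hst), ht (Finset.subset_union_right.trans hst),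
          Finset.union_empty] := by
    refine Algebra.adjoin_le ?_ h1
    rintro x (hx | ⟨hx, J', P', h3, h4, h5, h6⟩) <;> refine (mem_mono b).2 fun J hJ hs => ?_ <;>
      exfalso
    · obtain ⟨h3, N, hN, h4⟩ := supp_tate hF hx hJ
      obtain ⟨j, k, hjk, rfl⟩ := Finset.card_eq_two.1 h3
      refine hpair j (hs (by simp)) k (hs (by simp)) hjk ?_
      have m : ∀ j, β j ∈ Finset.univ.val.map β := fun j =>
        Multiset.mem_map_of_mem _ (Finset.mem_univ j)
      have h5 : β j * β k = β j * c (β j) := by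
        refine h.tf _ (mul_mem (Submonoid.subset_closure (m j)) (Submonoid.subset_closure (m k))) _
          (mul_mem (Submonoid.subset_closure (m j))
            (Submonoid.subset_closure (h.aut_mem c (m j)))) N hN ((algebraMap E K).injective ?_)
        rw [hc _ (m j)]
        rw [Finset.prod_pair hjk, one_mul] at h4
        simp only [map_pow, map_mul, map_natCast, hβ, h4]
      rw [← map_mul, h5, hc _ (m j)]
      simp
    · have h7 : J = {j₁, j₂, j₃, j₄} :=
        Finset.eq_of_subset_of_card_le hs (by rw [hcard, (supp_tate hF hx hJ).1])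
      have h8 := subset_of_supp b h6 hJ
      rw [h7] at h8
      have h9 := (map_prod_of_inj _ hβ _).2 h5
      have rt : ∀ j ∈ J', aeval (ψ (β j)) P' = 0 := fun j hj =>
        aeval_of_prod h9 ψ (Multiset.mem_map_of_mem _ hj)
      have dg : P'.natDegree = 8 := (natDegree_of_prod h9).trans (by simpa using h3)
      obtain ⟨Q₁, rfl⟩ := dvd_of_root m1 i1 r1 (e1 ▸ rt j₁ (h8 (by simp)))
      have t3 := rt j₃ (h8 (by simp))
      have t4 := rt j₄ (h8 (by simp))
      rw [e3, map_mul, mul_eq_zero, or_iff_right k4] at t3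
      obtain ⟨Q₂, rfl⟩ := dvd_of_root m2 i2 r4 t3
      rw [e4, map_mul, map_mul, mul_eq_zero, mul_eq_zero, or_iff_right k1, or_iff_right k2] at t4
      have m3 := m2.of_mul_monic_left (m1.of_mul_monic_left h4.1)
      rw [m1.natDegree_mul (m2.mul m3), m2.natDegree_mul m3, d1, d2] at dg
      rw [m3.natDegree_eq_zero.1 (by omega)] at t4
      simp at t4
  have h3 := (mem_mono b).1 h2 {j₁, j₂, j₃, j₄} (by simp) le_rfl
  simp at h3

end Pool.Agent.P.MP_ee618e_ag
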