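import Mathlib

/-!
Slope vectors: real functions on a finite group with the translation action.
-/

set_option autoImplicit false

namespace Pool.Agent.P.MP_ee618e_ag

open Classical

variable {G : Type*} [Group G] [Fintype G]

/-- Translation action on functions on `G`. -/
def act (τ : G) : (G → ℝ) →ₗ[ℝ] (G → ℝ) where
  toFun f := fun σ => f (σ * τ)
  map_add' _ _ := rfl
  map_smul' _ _ := rfl

omit [Fintype G] in
theorem act_apply (τ : G) (f : G → ℝ) (σ : G) : act τ f σ = f (σ * τ) := rfl

omit [Fintype G] in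
theorem act_mul (σ τ : G) (f : G → ℝ) : act (σ * τ) f = act σ (act τ f) := by
  funext ρ
  simp [act_apply, mul_assoc]

omit [Fintype G] in
theorem act_one (f : G → ℝ) : act 1 f = f := by
  funext ρ
  simp [act_apply]

omit [Fintype G] in
theorem act_inj (τ : G) {f g : G → ℝ} (h : act τ f = act τ g) : f = g := by
  have := congrArg (act τ⁻¹) h
  rwa [← act_mul, ← act_mul, inv_mul_cancel, act_one, act_one] at this

/-- The orbit of a function. -/
noncomputable def orb (x : G → ℝ) : Finset (G → ℝ) := Finset.univ.image fun τ : G => act τ x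

theorem mem_orb {x y : G → ℝ} : y ∈ orb x ↔ ∃ τ, act τ x = y := by simp [orb]

theorem self_mem_orb (x : G → ℝ) : x ∈ orb x := mem_orb.2 ⟨1, act_one x⟩

theorem act_mem_orb {x y : G → ℝ} (τ : G) (h : y ∈ orb x) : act τ y ∈ orb x := by
  obtain ⟨σ, rfl⟩ := mem_orb.1 h
  exact mem_orb.2 ⟨τ * σ, act_mul _ _ _⟩

theorem orb_symm {x y : G → ℝ} (h : y ∈ orb x) : x ∈ orb y := by
  obtain ⟨σ, rfl⟩ := mem_orb.1 h
  exact mem_orb.2 ⟨σ⁻¹, by rw [← act_mul, inv_mul_cancel, act_one]⟩

theorem orb_trans {x y z : G → ℝ} (h : y ∈ orb x) (h' : z ∈ orb y) : z ∈ orb x := by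
  obtain ⟨σ, rfl⟩ := mem_orb.1 h'
  exact act_mem_orb σ h

theorem orb_eq {x y : G → ℝ} (h : y ∈ orb x) : orb y = orb x :=
  Finset.ext fun _ => ⟨orb_trans h, orb_trans (orb_symm h)⟩

theorem exists_act {x y z : G → ℝ} (hy : y ∈ orb x) (hz : z ∈ orb x) : ∃ τ, act τ y = z :=
  mem_orb.1 (orb_trans (orb_symm hy) hz)

/-- The invariant quadratic form. -/
def nq (x : G → ℝ) : ℝ := ∑ σ, x σ ^ 2

theorem nq_act (τ : G) (x : G → ℝ) : nq (act τ x) = nq x :=
  Fintype.sum_equiv (Equiv.mulRight τ) _ _ fun _ => rfl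

theorem nq_orb {x y : G → ℝ} (h : y ∈ orb x) : nq y = nq x := by
  obtain ⟨σ, rfl⟩ := mem_orb.1 h
  exact nq_act σ x

omit [Group G] in
theorem nq_eq_zero {x : G → ℝ} (h : nq x = 0) : x = 0 := by
  funext σ
  have := (Finset.sum_eq_zero_iff_of_nonneg (fun σ _ => sq_nonneg (x σ))).1 h σ (Finset.mem_univ σ)
  simpa using this

omit [Group G] in
theorem nq_smul (k : ℝ) (x : G → ℝ) : nq (k • x) = k ^ 2 * nq x := by
  simp [nq, Finset.mul_sum, mul_pow]

omit [Group G] in
theorem nq_par (x y : G → ℝ) : nq (x - y) + nq (x + y) = 2 * nq x + 2 * nq y := by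
  simp only [nq, Finset.mul_sum, ← Finset.sum_add_distrib]
  exact Finset.sum_congr rfl fun σ _ => by simp; ring

/-- Equality up to sign. -/
def PM (x y : G → ℝ) : Prop := x = y ∨ x = -y

omit [Group G] [Fintype G] in
theorem PM.symm {x y : G → ℝ} (h : PM x y) : PM y x := by
  rcases h with rfl | rfl
  · exact Or.inl rfl
  · exact Or.inr (by simp)

omit [Group G] [Fintype G] in
theorem PM.trans {x y z : G → ℝ} (h : PM x y) (h' : PM y z) : PM x z := by
  rcases h with rfl | rfl <;> rcases h' with rfl | rfl <;> simp [PM]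

omit [Group G] [Fintype G] in
theorem PM.sign {x y : G → ℝ} (h : PM x y) : ∃ e : ℝ, (e = 1 ∨ e = -1) ∧ x = e • y := by
  rcases h with rfl | rfl
  · exact ⟨1, Or.inl rfl, by simp⟩
  · exact ⟨-1, Or.inr rfl, by simp⟩

omit [Group G] [Fintype G] in
theorem pm_of_sign {x y : G → ℝ} {e : ℝ} (he : e = 1 ∨ e = -1) (h : x = e • y) : PM x y := by
  rcases he with rfl | rfl
  · exact Or.inl (by simpa using h)
  · exact Or.inr (by simpa using h)

omit [Fintype G] in
theorem PM.of_act (τ : G) {x y : G → ℝ} (h : PM (act τ x) (act τ y)) : PM x y := by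
  rcases h with h | h
  · exact Or.inl (act_inj τ h)
  · exact Or.inr (act_inj τ (by rw [h, map_neg]))

omit [Group G] in
/-- Strict convexity: a relation `±u ± w + k z = 0` with `k ∈ {0, ±2}` among vectors of equal
length forces `u = ±w`. -/
theorem pm_of_rel {u w z : G → ℝ} {a b k : ℝ} (huw : nq w = nq u) (hz : nq z = nq u)
    (ha : a = 1 ∨ a = -1) (hb : b = 1 ∨ b = -1) (hk : k = 0 ∨ k = 2 ∨ k = -2)
    (h : a • u + b • w + k • z = 0) : PM u w := by
  have ha2 : a ^ 2 = 1 := by rcases ha with rfl | rfl <;> norm_num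
  have hb2 : b ^ 2 = 1 := by rcases hb with rfl | rfl <;> norm_num
  have key : a • u = b • w ∨ a • u = -(b • w) := by
    rcases hk with rfl | hk
    · right
      rw [zero_smul, add_zero] at h
      exact eq_neg_of_add_eq_zero_left h
    · left
      have hk2 : k ^ 2 = 4 := by rcases hk with rfl | rfl <;> norm_num
      have h1 : a • u + b • w = (-k) • z := by
        rw [neg_smul]
        exact eq_neg_of_add_eq_zero_left h
      have h2 := nq_par (a • u) (b • w)
      rw [h1, nq_smul, nq_smul, nq_smul, neg_sq, hk2, ha2, hb2, huw, hz] at h2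
      exact sub_eq_zero.1 (nq_eq_zero (by linarith))
  rcases ha with rfl | rfl <;> rcases hb with rfl | rfl <;> rcases key with key | key <;>
    simp only [one_smul, neg_smul, neg_neg, neg_inj] at key <;>
    first
      | exact Or.inl key
      | exact Or.inr key
      | exact Or.inr (neg_eq_iff_eq_neg.1 key)

omit [Group G] [Fintype G] in
theorem PM.refl (x : G → ℝ) : PM x x := Or.inl rfl

omit [Group G] [Fintype G] in
theorem pm_neg (x : G → ℝ) : PM (-x) x := Or.inr rfl

omit [Fintype G] in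
theorem PM.act (τ : G) {x y : G → ℝ} (h : PM x y) : PM (act τ x) (act τ y) := by
  rcases h with rfl | rfl
  · exact Or.inl rfl
  · exact Or.inr (map_neg _ _)

omit [Group G] in
theorem PM.nq {x y : G → ℝ} (h : PM x y) : nq x = nq y := by
  rcases h with rfl | rfl
  · rfl
  · simp [Pool.Agent.P.MP_ee618e_ag.nq]

/-- The pair `{u, -u}`. -/
def L (u : G → ℝ) : Multiset (G → ℝ) := {u, -u}

omit [Group G] [Fintype G] in
theorem mem_L {y u : G → ℝ} : y ∈ L u ↔ PM y u := by simp [L, PM]

omit [Group G] [Fintype G] in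
theorem L_eq {x y : G → ℝ} (h : PM x y) : L x = L y := by
  rcases h with rfl | rfl
  · rfl
  · simp only [L, neg_neg]
    exact Multiset.pair_comm _ _

omit [Fintype G] in
theorem map_L (τ : G) (u : G → ℝ) : (L u).map (act τ) = L (act τ u) := by simp [L]

omit [Group G] [Fintype G] in
theorem L1 {a a' : G → ℝ} (h : L a = L a') : PM a a' := by
  rw [← mem_L, ← h, mem_L]
  exact PM.refl a

omit [Group G] [Fintype G] in
theorem L2 {a b a' b' : G → ℝ} (h : L a + L b = L a' + L b') :
    (PM a a' ∧ PM b b') ∨ (PM a b' ∧ PM b a') := by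
  have ha : a ∈ L a' + L b' := by
    rw [← h]
    exact Multiset.mem_add.2 (Or.inl (mem_L.2 (PM.refl a)))
  rcases Multiset.mem_add.1 ha with h1 | h1
  · rw [mem_L] at h1
    rw [L_eq h1] at h
    exact Or.inl ⟨h1, L1 (add_left_cancel h)⟩
  · rw [mem_L] at h1
    rw [L_eq h1, add_comm (L a')] at h
    exact Or.inr ⟨h1, L1 (add_left_cancel h)⟩

omit [Group G] [Fintype G] in
theorem L3 {a b c a' b' c' : G → ℝ} (h : L a + L b + L c = L a' + L b' + L c') :
    ∃ x y z, PM x a' ∧ PM y b' ∧ PM z c' ∧ a + b + c = x + y + z := by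
  have ha : a ∈ L a' + L b' + L c' := by
    rw [← h]
    exact Multiset.mem_add.2 (Or.inl (Multiset.mem_add.2 (Or.inl (mem_L.2 (PM.refl a)))))
  simp only [Multiset.mem_add, mem_L] at ha
  rcases ha with (h1 | h1) | h1
  · have h2 : L b + L c = L b' + L c' := by
      rw [L_eq h1, add_assoc, add_assoc] at h
      exact add_left_cancel h
    rcases L2 h2 with ⟨h3, h4⟩ | ⟨h3, h4⟩
    · exact ⟨a, b, c, h1, h3, h4, rfl⟩
    · exact ⟨a, c, b, h1, h4, h3, by abel⟩
  · have h2 : L b + L c = L a' + L c' := by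
      rw [L_eq h1] at h
      apply add_left_cancel (a := L b')
      rw [← add_assoc, h]
      abel
    rcases L2 h2 with ⟨h3, h4⟩ | ⟨h3, h4⟩
    · exact ⟨b, a, c, h3, h1, h4, by abel⟩
    · exact ⟨c, a, b, h4, h1, h3, by abel⟩
  · have h2 : L b + L c = L a' + L b' := by
      rw [L_eq h1] at h
      apply add_left_cancel (a := L c')
      rw [← add_assoc, h]
      abel
    rcases L2 h2 with ⟨h3, h4⟩ | ⟨h3, h4⟩
    · exact ⟨b, c, a, h3, h4, h1, by abel⟩
    · exact ⟨c, b, a, h4, h3, h1, by abel⟩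

/-- Functions that every translation maps to plus or minus themselves. -/
def Eig (s : G → ℝ) : Prop := ∀ τ : G, PM (act τ s) s

omit [Fintype G] in
theorem Eig.zero {s : G → ℝ} (h : Eig s) (h1 : s 1 = 0) : s = 0 := by
  funext σ
  rcases h σ with h2 | h2 <;> have := congrFun h2 1 <;>
    simp only [act_apply, one_mul, Pi.neg_apply] at this <;> simp [this, h1]

omit [Fintype G] in
theorem Eig.fix {s : G → ℝ} (h : Eig s) {δ : G} (hδ : s δ = s 1) : act δ s = s := by
  rcases h δ with h2 | h2
  · exact h2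
  · have h3 := congrFun h2 1
    simp only [act_apply, one_mul, Pi.neg_apply] at h3
    have h4 : s = 0 := h.zero (by linarith)
    rw [h4, map_zero]

omit [Fintype G] in
theorem Eig.pm {s t : G → ℝ} (h : Eig s) (h' : PM t s) : Eig t := fun τ =>
  ((h'.act τ).trans (h τ)).trans h'.symm

omit [Fintype G] in
theorem Eig.smul {s : G → ℝ} (h : Eig s) (k : ℝ) : Eig (k • s) := fun τ => by
  rw [map_smul]
  rcases h τ with h1 | h1 <;> rw [h1]
  · exact Or.inl rfl
  · exact Or.inr (smul_neg _ _)

omit [Fintype G] in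
/-- If `{±a, ±b}` is stable and `a + b` spans a stable line, so does `a - b`. -/
theorem eig_sub {a b : G → ℝ} (hab : ¬ PM a b)
    (ha : ∀ τ, PM (act τ a) a ∨ PM (act τ a) b) (hb : ∀ τ, PM (act τ b) a ∨ PM (act τ b) b)
    (hs : Eig (a + b)) : Eig (a - b) := by
  intro τ
  have h1 := hs τ
  have h0 : ¬ PM (act τ a) (act τ b) := fun h => hab (h.of_act τ)
  rw [map_add] at h1
  rw [map_sub]
  have aux : ∀ u v : G → ℝ, (∀ σ, u σ = v σ) → PM u v := fun u v h => Or.inl (funext h)
  have aux' : ∀ u v : G → ℝ, (∀ σ, u σ = -v σ) → PM u v := fun u v h => Or.inr (funext h)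
  rcases ha τ with h2 | h2 <;> rcases hb τ with h3 | h3
  · exact absurd (h2.trans h3.symm) h0
  · rcases h2 with h2 | h2 <;> rcases h3 with h3 | h3 <;> rw [h2, h3] at h1 ⊢ <;>
      rcases h1 with h1 | h1 <;> have h4 := congrFun h1 <;>
      simp only [Pi.add_apply, Pi.neg_apply] at h4 <;>
      first
        | (refine aux _ _ fun σ => ?_
           simp only [Pi.sub_apply, Pi.neg_apply] <;> linarith [h4 σ])
        | (refine aux' _ _ fun σ => ?_
           simp only [Pi.sub_apply, Pi.neg_apply] <;> linarith [h4 σ])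
  · rcases h2 with h2 | h2 <;> rcases h3 with h3 | h3 <;> rw [h2, h3] at h1 ⊢ <;>
      rcases h1 with h1 | h1 <;> have h4 := congrFun h1 <;>
      simp only [Pi.add_apply, Pi.neg_apply] at h4 <;>
      first
        | (refine aux _ _ fun σ => ?_
           simp only [Pi.sub_apply, Pi.neg_apply] <;> linarith [h4 σ])
        | (refine aux' _ _ fun σ => ?_
           simp only [Pi.sub_apply, Pi.neg_apply] <;> linarith [h4 σ])
  · exact absurd (h2.trans h3.symm) h0

omit [Fintype G] in
/-- In that situation an element preserving the values at `1` fixes `a` and `b`. -/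
theorem fix_of_eig {a b : G → ℝ} (hs : Eig (a + b)) (hd : Eig (a - b)) {δ : G}
    (ha : a δ = a 1) (hb : b δ = b 1) : act δ a = a ∧ act δ b = b := by
  have h1 := hs.fix (δ := δ) (by simp [ha, hb])
  have h2 := hd.fix (δ := δ) (by simp [ha, hb])
  rw [map_add] at h1
  rw [map_sub] at h2
  constructor <;> funext σ <;> have h3 := congrFun h1 σ <;> have h4 := congrFun h2 σ <;>
    simp only [Pi.add_apply, Pi.sub_apply] at h3 h4 <;> linarith

omit [Group G] in
theorem nq_three (x y : G → ℝ) : nq ((2 : ℝ) • x + y) + 2 * nq (x - y) = 6 * nq x + 3 * nq y := by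
  simp only [nq, Finset.mul_sum, ← Finset.sum_add_distrib]
  exact Finset.sum_congr rfl fun σ _ => by simp; ring

end Pool.Agent.P.MP_ee618e_ag
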