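import Pool.Agent.P.MP_ee618e_ag.Core
import Pool.Agent.P.MP_ee618e_ag.Kron
import Pool.Agent.P.MP_ee618e_ag.Defs

/-!
Slope vectors of the roots of a Weil polynomial in a Galois number field.
-/

set_option autoImplicit false

namespace Pool.Agent.P.MP_ee618e_ag

open Polynomial Classical

/-- A polynomial satisfying the Honda-Tate conditions, with the multiset of its roots in a field,
which generate a torsion-free group. -/
structure WD (p a : ℕ) [Fact p.Prime] (P : ℤ[X]) {E : Type*} [Field E] (A : Multiset E) :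
    Prop where
  pos : 0 < a
  av : IsAVPoly p a P
  prod : P.map (Int.castRingHom E) = (A.map fun y => X - C y).prod
  tf : ∀ x ∈ Submonoid.closure {y | y ∈ A}, ∀ y ∈ Submonoid.closure {y | y ∈ A}, ∀ n : ℕ,
    0 < n → x ^ n = y ^ n → x = y

variable {p a : ℕ} [hp : Fact p.Prime] {P : ℤ[X]} {E : Type*} [Field E] [NumberField E]
  {A : Multiset E}

/-- The slope vector. -/
noncomputable def sl (ι : E →+* PadicAlgCl p) (a : ℕ) (x : E) : (E ≃ₐ[ℚ] E) → ℝ :=
  fun σ => -Real.log ‖ι (σ x)‖ / (a * Real.log p) - 1 / 2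

theorem sl_act (ι : E →+* PadicAlgCl p) (τ : E ≃ₐ[ℚ] E) (x : E) :
    act τ (sl ι a x) = sl ι a (τ x) := rfl

omit [NumberField E] in
theorem WD.roots (h : WD p a P A) : (P.map (Int.castRingHom E)).roots = A := by
  rw [h.prod, roots_multiset_prod_X_sub_C]

omit [NumberField E] in
theorem WD.mem_iff (h : WD p a P A) {x : E} : x ∈ A ↔ aeval x P = 0 := by
  rw [← h.roots, mem_roots (h.av.1.map _).ne_zero, IsRoot.def, eval_map, aeval_def]
  rfl

omit [NumberField E] in
theorem WD.integral (h : WD p a P A) {x : E} (hx : x ∈ A) : IsIntegral ℤ x :=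
  ⟨P, h.av.1, h.mem_iff.1 hx⟩

omit [NumberField E] in
theorem WD.abs (h : WD p a P A) (ψ : E →+* ℂ) {x : E} (hx : x ∈ A) : ‖ψ x‖ ^ 2 = (p : ℝ) ^ a := by
  apply h.av.2.1
  have := congrArg ψ (h.mem_iff.1 hx)
  rw [map_zero] at this
  rw [← this]
  exact aeval_algHom_apply ψ.toIntAlgHom x P

theorem WD.map_aut (h : WD p a P A) (σ : E ≃ₐ[ℚ] E) : A.map σ = A := by
  have h1 : (P.map (Int.castRingHom E)).map (σ : E →+* E) = P.map (Int.castRingHom E) := by
    rw [Polynomial.map_map]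
    congr 1
    exact RingHom.ext_int _ _
  rw [h.prod, Polynomial.map_multiset_prod, Multiset.map_map] at h1
  have h2 := congrArg Polynomial.roots h1
  rw [roots_multiset_prod_X_sub_C] at h2
  conv_rhs => rw [← h2]
  rw [← roots_multiset_prod_X_sub_C (A.map σ), Multiset.map_map]
  congr 2
  refine Multiset.map_congr rfl fun x _ => ?_
  simp

theorem WD.aut_mem (h : WD p a P A) (σ : E ≃ₐ[ℚ] E) {x : E} (hx : x ∈ A) : σ x ∈ A := by
  rw [← h.map_aut σ]
  exact Multiset.mem_map_of_mem _ hx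

theorem exists_complex (E : Type*) [Field E] [NumberField E] : Nonempty (E →+* ℂ) :=
  ⟨(IsAlgClosed.lift : E →ₐ[ℚ] ℂ).toRingHom⟩

theorem exists_padic (p : ℕ) [Fact p.Prime] (E : Type*) [Field E] [NumberField E] :
    Nonempty (E →+* PadicAlgCl p) :=
  ⟨(IsAlgClosed.lift : E →ₐ[ℚ] PadicAlgCl p).toRingHom⟩

theorem WD.ne_zero (h : WD p a P A) {x : E} (hx : x ∈ A) : x ≠ 0 := by
  rintro rfl
  obtain ⟨ψ⟩ := exists_complex E
  have := h.abs ψ hx
  have hp0 : (0 : ℝ) < p := by exact_mod_cast hp.out.pos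
  simp only [map_zero, norm_zero] at this
  linarith [pow_pos hp0 a]

theorem WD.conj [IsGalois ℚ E] (h : WD p a P A) :
    ∃ c : E ≃ₐ[ℚ] E, ∀ x ∈ A, x * c x = (p : E) ^ a := by
  obtain ⟨ψ⟩ := exists_complex E
  obtain ⟨c, hc⟩ := emb ψ ((starRingEnd ℂ).comp ψ)
  refine ⟨c, fun x hx => ψ.injective ?_⟩
  rw [map_mul, hc, RingHom.comp_apply, Complex.mul_conj', map_pow, map_natCast]
  exact_mod_cast congrArg (Complex.ofReal) (h.abs ψ hx)

theorem den_pos (ha : 0 < a) : 0 < (a : ℝ) * Real.log p :=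
  mul_pos (by exact_mod_cast ha) (Real.log_pos (by exact_mod_cast hp.out.one_lt))

theorem log_norm_q (ι : E →+* PadicAlgCl p) (σ : E ≃ₐ[ℚ] E) (k : ℕ) :
    Real.log ‖ι (σ ((p : E) ^ k))‖ = -(k * Real.log p) := by
  have : ‖(p : PadicAlgCl p)‖ = (p : ℝ)⁻¹ := by
    rw [← map_natCast (algebraMap ℚ_[p] (PadicAlgCl p)), PadicAlgCl.norm_extends, Padic.norm_p]
  rw [map_pow, map_pow, map_natCast, map_natCast, norm_pow, this, Real.log_pow, Real.log_inv]
  ring

theorem sum_sl (ι : E →+* PadicAlgCl p) (S : Multiset E) (hS : ∀ x ∈ S, x ≠ 0)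
    (σ : E ≃ₐ[ℚ] E) :
    (S.map (sl ι a)).sum σ = -Real.log ‖ι (σ S.prod)‖ / (a * Real.log p) - S.card / 2 := by
  induction S using Multiset.induction_on with
  | empty => simp
  | cons x s ih =>
    have h1 : s.prod ≠ 0 :=
      Multiset.prod_ne_zero fun h0 => hS 0 (Multiset.mem_cons_of_mem h0) rfl
    have h2 : x ≠ 0 := hS x (Multiset.mem_cons_self _ _)
    rw [Multiset.map_cons, Multiset.sum_cons, Pi.add_apply,
      ih fun y hy => hS y (Multiset.mem_cons_of_mem hy), Multiset.prod_cons, map_mul, map_mul,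
      norm_mul, Real.log_mul (by simpa using h2) (by simpa using h1), Multiset.card_cons, sl]
    push_cast
    ring

theorem WD.sl_conj (h : WD p a P A) (ι : E →+* PadicAlgCl p) {x y : E} (hx : x ∈ A) (hy : y ∈ A)
    (hxy : x * y = (p : E) ^ a) : sl ι a y = -sl ι a x := by
  funext σ
  have h1 := sum_sl (a := a) ι {x, y} (by
    intro z hz
    simp only [Multiset.insert_eq_cons, Multiset.mem_cons, Multiset.mem_singleton] at hz
    rcases hz with rfl | rfl
    exacts [h.ne_zero hx, h.ne_zero hy]) σ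
  have h2 := den_pos (p := p) h.pos
  simp only [Multiset.insert_eq_cons, Multiset.map_cons, Multiset.map_singleton,
    Multiset.sum_cons, Multiset.sum_singleton, Pi.add_apply, Multiset.prod_cons,
    Multiset.prod_singleton, hxy, log_norm_q, neg_neg, div_self h2.ne', Multiset.card_cons,
    Multiset.card_singleton] at h1
  simp only [Pi.neg_apply]
  push_cast at h1
  linarith

omit [NumberField E] in
theorem WD.abs_prod (h : WD p a P A) (ψ : E →+* ℂ) (S : Multiset E) (hS : ∀ x ∈ S, x ∈ A) :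
    ‖ψ S.prod‖ ^ 2 = ((p : ℝ) ^ a) ^ S.card := by
  induction S using Multiset.induction_on with
  | empty => simp
  | cons x s ih =>
    rw [Multiset.prod_cons, map_mul, norm_mul, mul_pow,
      ih fun y hy => hS y (Multiset.mem_cons_of_mem hy), h.abs ψ (hS x (Multiset.mem_cons_self _ _)),
      Multiset.card_cons, pow_succ']

/-- Products of roots are determined by their length and the sum of their slope vectors. -/
theorem WD.prod_eq [IsGalois ℚ E] (h : WD p a P A) (ι : E →+* PadicAlgCl p) {S T : Multiset E}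
    (hS : ∀ x ∈ S, x ∈ A) (hT : ∀ x ∈ T, x ∈ A) (hc : S.card = T.card)
    (hs : (S.map (sl ι a)).sum = (T.map (sl ι a)).sum) : S.prod = T.prod := by
  have s0 : S.prod ≠ 0 := Multiset.prod_ne_zero fun h0 => h.ne_zero (hS 0 h0) rfl
  have t0 : T.prod ≠ 0 := Multiset.prod_ne_zero fun h0 => h.ne_zero (hT 0 h0) rfl
  obtain ⟨c, hc'⟩ := h.conj
  have p0 : (p : E) ≠ 0 := by exact_mod_cast hp.out.ne_zero
  obtain ⟨n, hn, h1⟩ := kron ι (u := S.prod / T.prod) (by
    rw [div_eq_mul_inv, ← Multiset.prod_map_inv']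
    refine Subring.mul_mem _ (Subring.multiset_prod_mem _ _ fun x hx => ⟨0, ?_⟩)
      (Subring.multiset_prod_mem _ _ fun x hx => ?_)
    · simpa using h.integral (hS x hx)
    · obtain ⟨y, hy, rfl⟩ := Multiset.mem_map.1 hx
      refine ⟨a, ?_⟩
      rw [← hc' y (hT y hy), mul_comm y, mul_assoc, mul_inv_cancel₀ (h.ne_zero (hT y hy)), mul_one]
      exact h.integral (h.aut_mem c (hT y hy))) (by
    intro σ
    have h2 := congrFun hs σ
    rw [sum_sl ι S fun x hx => h.ne_zero (hS x hx), sum_sl ι T fun x hx => h.ne_zero (hT x hx),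
      hc, sub_left_inj, div_left_inj' (den_pos h.pos).ne', neg_inj] at h2
    have h3 := Real.log_injOn_pos (by simpa using s0) (by simpa using t0) h2
    rw [map_div₀, map_div₀, norm_div, h3, div_self (by simpa using t0)]) (by
    intro ψ
    have h2 := h.abs_prod ψ S hS
    rw [hc, ← h.abs_prod ψ T hT, sq_eq_sq₀ (norm_nonneg _) (norm_nonneg _)] at h2
    rw [map_div₀, norm_div, h2, div_self (by simpa using t0)])
  rw [div_pow, div_eq_one_iff_eq (pow_ne_zero n t0)] at h1
  exact h.tf _ (Submonoid.multiset_prod_mem _ _ fun x hx => Submonoid.subset_closure (hS x hx)) _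
    (Submonoid.multiset_prod_mem _ _ fun x hx => Submonoid.subset_closure (hT x hx)) n hn h1

theorem WD.inj [IsGalois ℚ E] (h : WD p a P A) (ι : E →+* PadicAlgCl p) :
    Set.InjOn (sl ι a) {x | x ∈ A} := fun x hx y hy hxy => by
  simpa using h.prod_eq ι (S := {x}) (T := {y}) (by simpa using hx) (by simpa using hy) rfl
    (by simpa using hxy)

theorem WD.count_sl [IsGalois ℚ E] (h : WD p a P A) (ι : E →+* PadicAlgCl p) {x : E}
    (hx : x ∈ A) : (A.map (sl ι a)).count (sl ι a x) = A.count x :=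
  Multiset.count_map_eq_count _ _ (h.inj ι) x hx

theorem WD.le_half (h : WD p a P A) (ι : E →+* PadicAlgCl p) {x : E} (hx : x ∈ A) :
    -(1 / 2) ≤ sl ι a x 1 := by
  have h1 : ‖ι x‖ ≤ 1 := norm_le_one_of_integral ((h.integral hx).map ι.toIntAlgHom)
  have h2 : Real.log ‖ι x‖ ≤ 0 := Real.log_nonpos (norm_nonneg _) h1
  have h3 : 0 ≤ -Real.log ‖ι x‖ / (a * Real.log p) :=
    div_nonneg (by linarith) (den_pos h.pos).le
  simp only [sl, AlgEquiv.one_apply]
  linarith

omit [NumberField E] in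
theorem WD.count_eq (h : WD p a P A) {F Ω : Type*} [Field F] [Field Ω] (f : E →+* Ω) (g : F →+* Ω)
    {x : E} {t : F} (ht : g t = f x) :
    A.count x = (P.map (Int.castRingHom F)).rootMultiplicity t := by
  rw [← h.roots, count_roots, eq_rootMultiplicity_map f.injective,
    eq_rootMultiplicity_map g.injective, ht, Polynomial.map_map, Polynomial.map_map,
    RingHom.ext_int (f.comp _) (g.comp _)]

theorem val_eq (ι : E →+* PadicAlgCl p) (ha : 0 < a) {x : E} (hx : x ≠ 0) {β : ℚ_[p]}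
    (hβ : algebraMap ℚ_[p] (PadicAlgCl p) β = ι x) :
    (β.valuation : ℝ) = a * (sl ι a x 1 + 1 / 2) := by
  have h0 : β ≠ 0 := by
    rintro rfl
    exact hx (by simpa using hβ.symm)
  have h1 : Real.log p ≠ 0 := (Real.log_pos (by exact_mod_cast hp.out.one_lt)).ne'
  have h2 : (a : ℝ) ≠ 0 := by exact_mod_cast ha.ne'
  simp only [sl, AlgEquiv.one_apply]
  rw [← hβ, PadicAlgCl.norm_extends, Padic.norm_eq_zpow_neg_valuation h0, Real.log_zpow]
  push_cast
  field_simp
  ring

theorem valuation_neg' (β : ℚ_[p]) : (-β).valuation = β.valuation := by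
  by_cases h : β = 0
  · simp [h]
  · have h1 : (-1 : ℚ_[p]).valuation = 0 := by
      have := Padic.valuation_pow (-1 : ℚ_[p]) 2
      simp only [even_two, Even.neg_pow, one_pow, Padic.valuation_one] at this
      omega
    rw [← neg_one_mul, Padic.valuation_mul (by simp) h, h1, zero_add]

/-- The automorphisms preserving the `p`-adic norm. -/
def dec (ι : E →+* PadicAlgCl p) : Set (E ≃ₐ[ℚ] E) := {δ | ∀ y, ‖ι (δ y)‖ = ‖ι y‖}

theorem WD.padic [IsGalois ℚ E] (h : WD p a P A) (ι : E →+* PadicAlgCl p) {x : E} (hx : x ∈ A)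
    (hD : ∀ δ ∈ dec ι, act δ (sl ι a x) = sl ι a x) :
    ∃ β : ℚ_[p], algebraMap ℚ_[p] (PadicAlgCl p) β = ι x :=
  padic_of_fixed ι fun δ hδ => h.inj ι (h.aut_mem δ hx) hx (hD δ hδ)

theorem WD.ctx [IsGalois ℚ E] (h : WD p a P A) (ι : E →+* PadicAlgCl p) :
    Ctx (dec ι) (A.map (sl ι a)) := by
  obtain ⟨c, hc⟩ := h.conj
  refine ⟨fun τ => ?_, ⟨c, fun y hy => ?_⟩, fun y hy => ?_, fun y hy δ hδ => ?_, fun y hy hD => ?_⟩
  · conv_rhs => rw [← h.map_aut τ]
    rw [Multiset.map_map, Multiset.map_map]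
    rfl
  all_goals obtain ⟨x, hx, rfl⟩ := Multiset.mem_map.1 hy
  · exact h.sl_conj ι hx (h.aut_mem c hx) (hc x hx)
  · have h1 := h.le_half ι hx
    have h2 := h.le_half ι (h.aut_mem c hx)
    rw [h.sl_conj ι hx (h.aut_mem c hx) (hc x hx), Pi.neg_apply] at h2
    exact abs_le.2 ⟨h1, by linarith⟩
  · simp only [sl, AlgEquiv.one_apply, hδ x]
  · obtain ⟨β, hβ⟩ := h.padic ι hx hD
    obtain ⟨n, hn⟩ := h.av.2.2.2 (X - C β) (monic_X_sub_C β) (irreducible_X_sub_C β)
    refine ⟨n, ?_⟩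
    have h1 := h.count_eq ι (algebraMap ℚ_[p] (PadicAlgCl p)) hβ
    rw [rootMultiplicity_eq_multiplicity, if_neg (h.av.1.map _).ne_zero] at h1
    rw [← h1, coeff_sub, coeff_X_zero, coeff_C_zero, zero_sub, valuation_neg'] at hn
    have h2 : ((A.count x : ℤ) : ℝ) * β.valuation = (a : ℤ) * n := by exact_mod_cast hn
    rw [val_eq ι h.pos (h.ne_zero hx) hβ] at h2
    have h3 : (a : ℝ) ≠ 0 := by exact_mod_cast h.pos.ne'
    rw [h.count_sl ι hx]
    apply mul_left_cancel₀ h3
    push_cast at h2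
    linarith

theorem WD.sq_of_zero [IsGalois ℚ E] (h : WD p a P A) (ι : E →+* PadicAlgCl p) {x : E}
    (hx : x ∈ A) (h0 : sl ι a x = 0) : x * x = (p : E) ^ a := by
  obtain ⟨c, hc⟩ := h.conj
  have h1 : c x = x := h.inj ι (h.aut_mem c hx) hx (by
    rw [h.sl_conj ι hx (h.aut_mem c hx) (hc x hx), h0, neg_zero])
  rw [← hc x hx, h1]

theorem WD.even [IsGalois ℚ E] (h : WD p a P A) (ι : E →+* PadicAlgCl p) :
    Even ((A.map (sl ι a)).count 0) := by
  by_cases h0 : 0 ∈ A.map (sl ι a)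
  · obtain ⟨x, hx, h1⟩ := Multiset.mem_map.1 h0
    obtain ⟨ψ⟩ := exists_complex E
    have h2 := congrArg ψ (h.sq_of_zero ι hx h1)
    have h3 : ψ x * ψ x = ψ x * (starRingEnd ℂ) (ψ x) := by
      rw [Complex.mul_conj', ← map_mul, h2, map_pow, map_natCast]
      exact_mod_cast congrArg (Complex.ofReal) (h.abs ψ hx).symm
    have h4 := mul_left_cancel₀ (by simpa using h.ne_zero hx) h3
    obtain ⟨t, ht⟩ := Complex.conj_eq_iff_real.1 h4.symm
    rw [← h1, h.count_sl ι hx, h.count_eq ψ Complex.ofRealHom (t := t) ht.symm]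
    exact h.av.2.2.1 t
  · rw [Multiset.count_eq_zero.2 h0]
    exact Even.zero

end Pool.Agent.P.MP_ee618e_ag
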